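import Mathlib
import Pool.Agent.Q276.CD.Stm

set_option autoImplicit false

/-!
# Gaussian tails, and the change of an exponential weight (job LAW of project CD)
-/

namespace Pool.Agent.Q177.CD

open MeasureTheory ProbabilityTheory Set Filter
open Pool.Agent.Q276.CD (Phi)

/-- The normal density. -/
noncomputable def pd (t : ℝ) : ℝ := gaussianPDFReal 0 1 t

theorem pd_eq (t : ℝ) : pd t = (√(2 * Real.pi))⁻¹ * Real.exp (-(t ^ 2 / 2)) := by
  rw [pd, gaussianPDFReal_def]
  simp only [NNReal.coe_one, mul_one, sub_zero]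
  congr 2
  ring

theorem pd_nonneg (t : ℝ) : 0 ≤ pd t := gaussianPDFReal_nonneg _ _ _

theorem pd_int : Integrable pd := integrable_gaussianPDFReal 0 1

theorem sqrt_two_pi_gt : 2 ≤ √(2 * Real.pi) := by
  apply Real.le_sqrt_of_sq_le
  have := Real.pi_gt_three
  linarith

theorem sqrt_two_pi_lt : √(2 * Real.pi) ≤ 3 := by
  rw [Real.sqrt_le_left (by norm_num)]
  have := Real.pi_lt_d2
  linarith

theorem real_set (s : Set ℝ) : (gaussianReal 0 1).real s = ∫ t in s, pd t := by
  rw [Measure.real, gaussianReal_apply_eq_integral _ one_ne_zero,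
    ENNReal.toReal_ofReal]
  · rfl
  · exact integral_nonneg fun t => pd_nonneg t

theorem one_sub_Phi (x : ℝ) : 1 - Phi x = ∫ t in Ioi x, pd t := by
  rw [← real_set, Phi, ← compl_Iic, probReal_compl_eq_one_sub measurableSet_Iic]

theorem one_sub_Phi_sub (x y : ℝ) : (1 - Phi x) - (1 - Phi y) = ∫ t in x..y, pd t := by
  rw [one_sub_Phi, one_sub_Phi, intervalIntegral.integral_Ioi_sub_Ioi' pd_int.integrableOn
    pd_int.integrableOn]

theorem one_sub_Phi_nonneg (x : ℝ) : 0 ≤ 1 - Phi x := by
  rw [one_sub_Phi]; exact integral_nonneg fun t => pd_nonneg t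

theorem pd_cont : Continuous pd := by
  have : pd = fun t => (√(2 * Real.pi))⁻¹ * Real.exp (-(t ^ 2 / 2)) := by
    ext t; exact pd_eq t
  rw [this]
  fun_prop

/-- Lower bound of the tail. -/
theorem mills (x : ℝ) (hx : 0 ≤ x) : Real.exp (-(x ^ 2 / 2)) ≤ 15 * (1 + x) * (1 - Phi x) := by
  set h : ℝ := 1 / (1 + x) with hh
  have hpos : 0 < 1 + x := by linarith
  have hh0 : 0 < h := by positivity
  have hh1 : h ≤ 1 := by rw [hh, div_le_one hpos]; linarith
  have hxh : x * h ≤ 1 := by rw [hh, mul_one_div, div_le_one hpos]; linarith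
  have h1 : ∫ t in x..(x + h), pd t ≤ 1 - Phi x := by
    have := one_sub_Phi_sub x (x + h)
    have h2 := one_sub_Phi_nonneg (x + h)
    linarith
  have h2 : h * ((√(2 * Real.pi))⁻¹ * Real.exp (-(x ^ 2 / 2) - 3 / 2)) ≤
      ∫ t in x..(x + h), pd t := by
    have h3 : ∫ _t in x..(x + h), ((√(2 * Real.pi))⁻¹ * Real.exp (-(x ^ 2 / 2) - 3 / 2)) =
        h * ((√(2 * Real.pi))⁻¹ * Real.exp (-(x ^ 2 / 2) - 3 / 2)) := by
      rw [intervalIntegral.integral_const, smul_eq_mul]; ring
    rw [← h3]
    apply intervalIntegral.integral_mono_on (by linarith) (by simp)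
      (pd_cont.intervalIntegrable _ _)
    intro t ht
    rw [pd_eq]
    apply mul_le_mul_of_nonneg_left _ (by positivity)
    apply Real.exp_le_exp.2
    have : t ^ 2 ≤ (x + h) ^ 2 := by
      apply pow_le_pow_left₀ (by linarith [ht.1]) ht.2
    nlinarith
  have h3 : Real.exp (-(x ^ 2 / 2) - 3 / 2) = Real.exp (-(x ^ 2 / 2)) / Real.exp (3 / 2) := by
    rw [Real.exp_sub]
  have h4 : Real.exp (3 / 2) ≤ 5 := by
    have e1 : Real.exp (3 / 2) ^ 2 = Real.exp 1 ^ 3 := by
      rw [← Real.exp_nat_mul, ← Real.exp_nat_mul]; norm_num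
    have e2 := Real.exp_one_lt_d9
    have e3 : Real.exp 1 ^ 3 ≤ 2.7182818286 ^ 3 := pow_le_pow_left₀ (Real.exp_pos 1).le e2.le 3
    nlinarith [Real.exp_pos (3 / 2)]
  have h5 : Real.exp (-(x ^ 2 / 2)) / 15 ≤ (√(2 * Real.pi))⁻¹ * Real.exp (-(x ^ 2 / 2) - 3 / 2) := by
    rw [h3]
    have e0 := Real.exp_pos (-(x ^ 2 / 2))
    have e1 : (1 : ℝ) / 3 ≤ (√(2 * Real.pi))⁻¹ := by
      rw [one_div]
      exact inv_anti₀ (by linarith [sqrt_two_pi_gt]) sqrt_two_pi_lt
    have e2 : Real.exp (-(x ^ 2 / 2)) / 5 ≤ Real.exp (-(x ^ 2 / 2)) / Real.exp (3 / 2) :=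
      div_le_div_of_nonneg_left e0.le (Real.exp_pos _) h4
    calc Real.exp (-(x ^ 2 / 2)) / 15 = 1 / 3 * (Real.exp (-(x ^ 2 / 2)) / 5) := by ring
      _ ≤ _ := mul_le_mul e1 e2 (by positivity) (by positivity)
  have h6 : h * (Real.exp (-(x ^ 2 / 2)) / 15) ≤ 1 - Phi x :=
    (mul_le_mul_of_nonneg_left h5 hh0.le).trans (h2.trans h1)
  have h7 : h * (1 + x) = 1 := by rw [hh]; field_simp
  calc Real.exp (-(x ^ 2 / 2)) = 15 * (1 + x) * (h * (Real.exp (-(x ^ 2 / 2)) / 15)) := by
        rw [show 15 * (1 + x) * (h * (Real.exp (-(x ^ 2 / 2)) / 15)) =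
          (h * (1 + x)) * Real.exp (-(x ^ 2 / 2)) by ring, h7, one_mul]
    _ ≤ _ := mul_le_mul_of_nonneg_left h6 (by positivity)

/-- Shift of the argument. -/
theorem shift (x δ : ℝ) (hx : 0 ≤ x) (hδ : |δ| ≤ 1 / (1 + x)) :
    |(1 - Phi (x + δ)) - (1 - Phi x)| ≤ 30 * (1 + x) * |δ| * (1 - Phi x) := by
  have hpos : 0 < 1 + x := by linarith
  have hδx : x * |δ| ≤ 1 := by
    have h1 := mul_le_mul_of_nonneg_left hδ hx
    have h2 : x * (1 / (1 + x)) ≤ 1 := by
      rw [mul_one_div, div_le_one hpos]; linarith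
    linarith
  have h1 : (1 - Phi (x + δ)) - (1 - Phi x) = ∫ t in (x + δ)..x, pd t := one_sub_Phi_sub _ _
  rw [h1]
  have h2 : ∀ t ∈ Set.uIoc (x + δ) x, ‖pd t‖ ≤ 2 * Real.exp (-(x ^ 2 / 2)) := by
    intro t ht
    have ht' : x - |δ| ≤ t := by
      rw [Set.mem_uIoc] at ht
      have := abs_nonneg δ
      have := neg_abs_le δ
      rcases ht with h | h <;> linarith [h.1]
    rw [Real.norm_eq_abs, abs_of_nonneg (pd_nonneg t), pd_eq]
    have e1 : Real.exp (-(t ^ 2 / 2)) ≤ Real.exp (-(x ^ 2 / 2) + 1) := by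
      apply Real.exp_le_exp.2
      have h3 : x ^ 2 - 2 * (x * |δ|) ≤ t ^ 2 := by
        by_cases h : 0 ≤ x - |δ|
        · nlinarith [sq_nonneg (|δ|)]
        · push Not at h
          nlinarith [sq_nonneg t, abs_nonneg δ]
      linarith
    have e2 : (√(2 * Real.pi))⁻¹ ≤ 1 / 2 := by
      rw [one_div]
      exact inv_anti₀ (by norm_num) sqrt_two_pi_gt
    have e3 : Real.exp 1 ≤ 4 := by linarith [Real.exp_one_lt_d9]
    rw [Real.exp_add] at e1
    have e0 := Real.exp_pos (-(x ^ 2 / 2))
    calc (√(2 * Real.pi))⁻¹ * Real.exp (-(t ^ 2 / 2))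
        ≤ 1 / 2 * (Real.exp (-(x ^ 2 / 2)) * Real.exp 1) :=
          mul_le_mul e2 e1 (Real.exp_pos _).le (by norm_num)
      _ ≤ 1 / 2 * (Real.exp (-(x ^ 2 / 2)) * 4) := by gcongr
      _ = _ := by ring
  have h3 := intervalIntegral.norm_integral_le_of_norm_le_const h2
  rw [Real.norm_eq_abs] at h3
  have h4 : |x - (x + δ)| = |δ| := by
    rw [show x - (x + δ) = -δ by ring, abs_neg]
  rw [h4] at h3
  have h5 := mills x hx
  have h6 := abs_nonneg δ
  calc _ ≤ 2 * Real.exp (-(x ^ 2 / 2)) * |δ| := h3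
    _ ≤ 2 * (15 * (1 + x) * (1 - Phi x)) * |δ| := by gcongr
    _ = _ := by ring

/-- The exponentially weighted tail of the normal law. -/
theorem weighted (x z₀ : ℝ) : ∫ z in Ioi z₀, Real.exp (-(x * z)) ∂(gaussianReal 0 1) =
    Real.exp (x ^ 2 / 2) * (1 - Phi (x + z₀)) := by
  have h1 : ∫ z in Ioi z₀, Real.exp (-(x * z)) ∂(gaussianReal 0 1) =
      ∫ z in Ioi z₀, pd z * Real.exp (-(x * z)) := by
    rw [← integral_indicator measurableSet_Ioi, integral_gaussianReal_eq_integral_smul one_ne_zero,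
      ← integral_indicator measurableSet_Ioi]
    refine integral_congr_ae (Filter.Eventually.of_forall fun z => ?_)
    simp only [smul_eq_mul, Set.indicator]
    split_ifs with h
    · rfl
    · rw [mul_zero]
  rw [h1, one_sub_Phi, ← integral_const_mul]
  have h2 : ∀ z, pd z * Real.exp (-(x * z)) = Real.exp (x ^ 2 / 2) * pd (z + x) := by
    intro z
    rw [pd_eq, pd_eq]
    have : Real.exp (-(z ^ 2 / 2)) * Real.exp (-(x * z)) =
        Real.exp (x ^ 2 / 2) * Real.exp (-((z + x) ^ 2 / 2)) := by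
      rw [← Real.exp_add, ← Real.exp_add]; congr 1; ring
    calc _ = (√(2 * Real.pi))⁻¹ * (Real.exp (-(z ^ 2 / 2)) * Real.exp (-(x * z))) := by ring
      _ = _ := by rw [this]; ring
  simp only [h2]
  have h3 := integral_add_right_eq_self (μ := volume)
    (fun a : ℝ => (Ioi (x + z₀)).indicator (fun a => Real.exp (x ^ 2 / 2) * pd a) a) x
  rw [integral_indicator measurableSet_Ioi] at h3
  rw [← h3, ← integral_indicator measurableSet_Ioi]
  refine integral_congr_ae (Filter.Eventually.of_forall fun z => ?_)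
  simp only [Set.indicator, Set.mem_Ioi]
  have e : (x + z₀ < z + x) ↔ (z₀ < z) := by constructor <;> intro h <;> linarith
  simp only [e]

/-- Open half lines. -/
theorem Iio_close (Q γ : Measure ℝ) [IsProbabilityMeasure Q] [IsProbabilityMeasure γ] (Δ : ℝ)
    (h : ∀ y : ℝ, |Q.real (Iic y) - γ.real (Iic y)| ≤ Δ) (y : ℝ) :
    |Q.real (Iio y) - γ.real (Iio y)| ≤ Δ := by
  have hu : ∀ (μ : Measure ℝ) [IsProbabilityMeasure μ],
      Tendsto (fun n : ℕ => μ.real (Iic (y - 1 / ((n : ℝ) + 1)))) atTop (nhds (μ.real (Iio y))) := by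
    intro μ _
    have h1 : Iio y = ⋃ n : ℕ, Iic (y - 1 / ((n : ℝ) + 1)) := by
      ext z
      simp only [mem_Iio, mem_iUnion, mem_Iic]
      constructor
      · intro hz
        obtain ⟨n, hn⟩ := exists_nat_one_div_lt (sub_pos.2 hz)
        exact ⟨n, by linarith⟩
      · rintro ⟨n, hn⟩
        have : (0 : ℝ) < 1 / ((n : ℝ) + 1) := by positivity
        linarith
    have hmono : Monotone fun n : ℕ => Iic (y - 1 / ((n : ℝ) + 1)) := by
      intro a b hab
      apply Iic_subset_Iic.2
      have : (1 : ℝ) / ((b : ℝ) + 1) ≤ 1 / ((a : ℝ) + 1) := by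
        apply one_div_le_one_div_of_le (by positivity)
        have : (a : ℝ) ≤ b := by exact_mod_cast hab
        linarith
      linarith
    rw [h1]
    exact (ENNReal.tendsto_toReal (measure_ne_top μ _)).comp
      (tendsto_measure_iUnion_atTop hmono)
  exact le_of_tendsto ((hu Q).sub (hu γ)).abs (Filter.Eventually.of_forall fun n => h _)

/-- Two laws with close distribution functions: exponentially weighted tails. -/
theorem tilt_close (Q γ : Measure ℝ) [IsProbabilityMeasure Q] [IsProbabilityMeasure γ] (Δ : ℝ)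
    (h : ∀ y : ℝ, |Q.real (Iic y) - γ.real (Iic y)| ≤ Δ) (x z₀ : ℝ) (hx : 0 ≤ x) :
    |∫ z in Ioi z₀, Real.exp (-(x * z)) ∂Q - ∫ z in Ioi z₀, Real.exp (-(x * z)) ∂γ| ≤
      2 * Δ * Real.exp (-(x * z₀)) := by
  have hΔ : 0 ≤ Δ := (abs_nonneg _).trans (h 0)
  set g : ℝ → ℝ := (Ioi z₀).indicator (fun z => Real.exp (-(x * z))) with hg
  have hgm : Measurable g := by
    apply Measurable.indicator _ measurableSet_Ioi
    fun_prop
  have hg0 : ∀ z, 0 ≤ g z := fun z => Set.indicator_nonneg (fun _ _ => (Real.exp_pos _).le) z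
  have hgb : ∀ z, g z ≤ Real.exp (-(x * z₀)) := by
    intro z
    rw [hg, Set.indicator]
    split_ifs with hz
    · apply Real.exp_le_exp.2
      have : z₀ < z := hz
      nlinarith
    · exact (Real.exp_pos _).le
  have hgi : ∀ (μ : Measure ℝ) [IsProbabilityMeasure μ], Integrable g μ := by
    intro μ _
    refine Integrable.of_bound hgm.aestronglyMeasurable (Real.exp (-(x * z₀)))
      (Filter.Eventually.of_forall fun z => ?_)
    rw [Real.norm_eq_abs, abs_of_nonneg (hg0 z)]
    exact hgb z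
  have hlc : ∀ (μ : Measure ℝ) [IsProbabilityMeasure μ],
      ∫ z in Ioi z₀, Real.exp (-(x * z)) ∂μ =
        ∫ u in (0 : ℝ)..Real.exp (-(x * z₀)), μ.real {z | u < g z} := by
    intro μ _
    rw [← integral_indicator measurableSet_Ioi,
      (hgi μ).integral_eq_integral_meas_lt (Filter.Eventually.of_forall hg0),
      intervalIntegral.integral_of_le (Real.exp_pos _).le]
    rw [← setIntegral_eq_of_subset_of_forall_diff_eq_zero measurableSet_Ioi
      (Ioc_subset_Ioi_self : Ioc 0 (Real.exp (-(x * z₀))) ⊆ Ioi 0)]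
    intro u hu
    have hu' : Real.exp (-(x * z₀)) < u := by
      by_contra hcon
      exact hu.2 ⟨hu.1, not_lt.1 hcon⟩
    have : {z | u < g z} = ∅ := by
      ext z
      simp only [mem_setOf_eq, mem_empty_iff_false, iff_false, not_lt]
      exact (hgb z).trans hu'.le
    rw [this, measureReal_empty]
  have hmeas : ∀ (μ : Measure ℝ) [IsProbabilityMeasure μ] (a b : ℝ),
      IntervalIntegrable (fun u => μ.real {z | u < g z}) volume a b := by
    intro μ _ a b
    apply Antitone.intervalIntegrable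
    intro u v huv
    exact measureReal_mono (fun z hz => lt_of_le_of_lt huv hz) (measure_ne_top _ _)
  rw [hlc Q, hlc γ, ← intervalIntegral.integral_sub (hmeas Q _ _) (hmeas γ _ _)]
  have hb : ∀ u ∈ Set.uIoc 0 (Real.exp (-(x * z₀))),
      ‖Q.real {z | u < g z} - γ.real {z | u < g z}‖ ≤ 2 * Δ := by
    intro u hu
    rw [Set.uIoc_of_le (Real.exp_pos _).le] at hu
    rw [Real.norm_eq_abs]
    have hIoi : |Q.real (Ioi z₀) - γ.real (Ioi z₀)| ≤ Δ := by
      have e : ∀ (μ : Measure ℝ) [IsProbabilityMeasure μ], μ.real (Ioi z₀) = 1 - μ.real (Iic z₀) := by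
        intro μ _
        rw [← compl_Iic, probReal_compl_eq_one_sub measurableSet_Iic]
      rw [e Q, e γ]
      have := h z₀
      rw [abs_sub_comm] at this
      rwa [show 1 - Q.real (Iic z₀) - (1 - γ.real (Iic z₀)) =
        γ.real (Iic z₀) - Q.real (Iic z₀) by ring]
    rcases hx.eq_or_lt with hx0 | hx0
    · -- `x = 0`
      by_cases hu1 : u < 1
      · have : {z | u < g z} = Ioi z₀ := by
          ext z
          simp only [mem_setOf_eq, hg, Set.indicator, ← hx0, zero_mul, neg_zero, Real.exp_zero]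
          by_cases hz : z ∈ Ioi z₀
          · simp [hz, hu1]
          · simp [hz, hu.1.le]
        rw [this]
        linarith
      · have : {z | u < g z} = ∅ := by
          ext z
          simp only [mem_setOf_eq, mem_empty_iff_false, iff_false, not_lt]
          refine (hgb z).trans ?_
          rw [← hx0, zero_mul, neg_zero, Real.exp_zero]
          exact not_lt.1 hu1
        rw [this, measureReal_empty, measureReal_empty, sub_zero, abs_zero]
        positivity
    · set y := -(Real.log u / x) with hy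
      have hyz : z₀ ≤ y := by
        have h1 : Real.log u ≤ -(x * z₀) := by
          rw [Real.log_le_iff_le_exp hu.1]; exact hu.2
        rw [hy, ← neg_div, le_div_iff₀ hx0]
        linarith
      have hset : {z | u < g z} = Iio y \ Iic z₀ := by
        ext z
        simp only [mem_setOf_eq, hg, Set.indicator, mem_diff, mem_Iio, mem_Iic, not_le]
        by_cases hz : z ∈ Ioi z₀
        · rw [if_pos hz]
          have hz' : z₀ < z := hz
          rw [← Real.log_lt_iff_lt_exp hu.1]
          constructor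
          · intro h1
            refine ⟨?_, hz'⟩
            rw [hy, ← neg_div, lt_div_iff₀ hx0]
            linarith
          · rintro ⟨h1, -⟩
            rw [hy, ← neg_div, lt_div_iff₀ hx0] at h1
            linarith
        · rw [if_neg hz]
          have hz' : ¬ z₀ < z := hz
          constructor
          · intro h1
            exact absurd h1 (not_lt.2 hu.1.le)
          · rintro ⟨-, h1⟩
            exact absurd h1 hz'
      have hval : ∀ (μ : Measure ℝ) [IsProbabilityMeasure μ], 
          z₀ < y → μ.real (Iio y \ Iic z₀) = μ.real (Iio y) - μ.real (Iic z₀) := by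
        intro μ _ hlt
        rw [measureReal_diff (Iic_subset_Iio.2 hlt) measurableSet_Iic]
      rw [hset]
      rcases hyz.eq_or_lt with heq | hlt
      · have : Iio y \ Iic z₀ = ∅ := by
          rw [← heq]
          ext z
          simp only [mem_diff, mem_Iio, mem_Iic, mem_empty_iff_false, iff_false, not_and, not_not]
          intro h1
          exact h1.le
        rw [this, measureReal_empty, measureReal_empty, sub_zero, abs_zero]
        positivity
      · rw [hval Q hlt, hval γ hlt]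
        have h1 := Iio_close Q γ Δ h y
        have h2 := h z₀
        rw [abs_le] at *
        constructor <;> linarith [h1.1, h1.2, h2.1, h2.2]
  have := intervalIntegral.norm_integral_le_of_norm_le_const hb
  rw [Real.norm_eq_abs, sub_zero, abs_of_pos (Real.exp_pos _)] at this
  exact this

end Pool.Agent.Q177.CD
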