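import Mathlib
import Pool.Agent.Q276.CD.Stm
import Pool.Agent.Q177.CD.Gau
import Pool.Agent.Q285.MM.Ess

set_option autoImplicit false

/-!
# From the exponential moments to moderate deviations (job LAW of project CD)
-/

namespace Pool.Agent.Q177.CD

open MeasureTheory ProbabilityTheory Set Filter
open Pool.Agent.Q276.CD (Phi)

theorem int_gauss (σ : ℝ) (hσ : 0 ≤ σ) : ∫ t in (0 : ℝ)..σ, Real.exp (-(t ^ 2 / 2)) ≤ 2 := by
  have e : ∀ t : ℝ, Real.exp (-(t ^ 2 / 2)) = Real.exp (-(1 / 2) * t ^ 2) := by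
    intro t; congr 1; ring
  simp only [e]
  rw [intervalIntegral.integral_of_le hσ]
  have hi : Integrable fun t : ℝ => Real.exp (-(1 / 2) * t ^ 2) :=
    integrable_exp_neg_mul_sq (by norm_num)
  calc ∫ t in Ioc 0 σ, Real.exp (-(1 / 2) * t ^ 2)
      ≤ ∫ t in Ioi (0 : ℝ), Real.exp (-(1 / 2) * t ^ 2) :=
        setIntegral_mono_set hi.integrableOn
          (Filter.Eventually.of_forall fun t => (Real.exp_pos _).le)
          (HasSubset.Subset.eventuallyLE Ioc_subset_Ioi_self)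
    _ = √(Real.pi / (1 / 2)) / 2 := integral_gaussian_Ioi _
    _ ≤ 2 := by
        have : √(Real.pi / (1 / 2)) ≤ 3 := by
          rw [Real.sqrt_le_left (by norm_num)]
          have := Real.pi_lt_d2
          linarith
        linarith

theorem int_hat (σ δ : ℝ) (hσ : 0 ≤ σ) (hδ : 0 < δ) :
    ∫ t in (0 : ℝ)..σ, max 0 (2 - t / δ) ≤ 4 * δ := by
  have hc : Continuous fun t : ℝ => max 0 (2 - t / δ) := by fun_prop
  have h1 : ∫ t in (0 : ℝ)..σ, max 0 (2 - t / δ) ≤ ∫ t in (0 : ℝ)..(max σ (2 * δ)), max 0 (2 - t / δ) := by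
    rw [← intervalIntegral.integral_add_adjacent_intervals (hc.intervalIntegrable 0 σ)
      (hc.intervalIntegrable σ (max σ (2 * δ)))]
    have : 0 ≤ ∫ t in σ..(max σ (2 * δ)), max 0 (2 - t / δ) :=
      intervalIntegral.integral_nonneg (le_max_left _ _) fun _ _ => le_max_left _ _
    linarith
  have h2 : ∫ t in (0 : ℝ)..(max σ (2 * δ)), max 0 (2 - t / δ) =
      (∫ t in (0 : ℝ)..(2 * δ), max 0 (2 - t / δ)) +
        ∫ t in (2 * δ)..(max σ (2 * δ)), max 0 (2 - t / δ) :=
    (intervalIntegral.integral_add_adjacent_intervals (hc.intervalIntegrable _ _)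
      (hc.intervalIntegrable _ _)).symm
  have h3 : ∫ t in (2 * δ)..(max σ (2 * δ)), max 0 (2 - t / δ) = 0 := by
    rw [intervalIntegral.integral_congr (g := fun _ => 0)]
    · simp
    · intro t ht
      rw [Set.uIcc_of_le (le_max_right _ _)] at ht
      simp only
      rw [max_eq_left]
      have : 2 ≤ t / δ := by rw [le_div_iff₀ hδ]; exact ht.1
      linarith
  have h4 : ∫ t in (0 : ℝ)..(2 * δ), max 0 (2 - t / δ) ≤ ∫ _t in (0 : ℝ)..(2 * δ), (2 : ℝ) := by
    apply intervalIntegral.integral_mono_on (by positivity) (hc.intervalIntegrable _ _) (by simp)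
    intro t ht
    apply max_le (by norm_num)
    have : 0 ≤ t / δ := div_nonneg ht.1 hδ.le
    linarith
  rw [intervalIntegral.integral_const, smul_eq_mul] at h4
  rw [h2, h3] at h1
  linarith

theorem core {Ω : Type} [MeasurableSpace Ω] (μ : Measure Ω) [IsProbabilityMeasure μ] (X : Ω → ℝ)
    (hX : Measurable X) (L σ x τ δ C₁ ξ : ℝ) (H : ℂ → ℂ) (hσ : 1 ≤ σ) (hx : 0 ≤ x) (hxσ : x ≤ σ)
    (hL : 0 ≤ L) (hτ0 : 0 ≤ τ) (hτ : τ ≤ 1 / 4) (hξ : ξ ≤ 1 / 4) (hδ0 : 0 < δ)
    (hδ : δ ≤ 1 / 2) (hC : 0 ≤ C₁)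
    (hmgf : ∀ w : ℂ, ‖w‖ ≤ 2 → ‖∫ ω in {ω | |X ω| ≤ L}, Complex.exp (w * X ω) ∂μ -
      Complex.exp (w ^ 2 * σ ^ 2 / 2) * H w‖ ≤ τ)
    (hH : ∀ w w' : ℂ, ‖w‖ ≤ 2 → ‖w'‖ ≤ 2 → ‖H w - H w'‖ ≤ C₁ * ‖w - w'‖)
    (hHb : ‖H ((x / σ : ℝ) : ℂ) - 1‖ ≤ ξ)
    (htail : μ.real {ω | L < |X ω|} ≤ τ) (z₀ : ℝ) (hz : |z₀| ≤ 1 / (1 + x)) :
    |μ.real {ω | σ * (x + z₀) < X ω} - (1 - Phi x)| ≤
      (130 * (1 + x) * (8 * (C₁ + 1) / σ + 4 * τ * σ / δ + 4 * δ * (L + σ + 1)) +
        31 * (τ + ξ) + 30 * (1 + x) * |z₀| + 15 * τ * (1 + x) * Real.exp (x ^ 2 / 2)) *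
        (1 - Phi x) := by
  have hσ0 : 0 < σ := by linarith
  set b : ℝ := x / σ with hb
  have hb0 : 0 ≤ b := by positivity
  have hb1 : b ≤ 1 := by rw [hb, div_le_one hσ0]; exact hxσ
  have hbσ : b * σ = x := by rw [hb]; field_simp
  set A : Set Ω := {ω | |X ω| ≤ L} with hA
  have hAm : MeasurableSet A := measurableSet_le hX.abs measurable_const
  have hξ0 : 0 ≤ ξ := (norm_nonneg _).trans hHb
  -- the normalisation
  set M : ℝ := ∫ ω in A, Real.exp (b * X ω) ∂μ with hM
  have hexpint : Integrable (fun ω => Real.exp (b * X ω)) (μ.restrict A) := by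
    refine Integrable.of_bound (by fun_prop) (Real.exp (b * L)) ?_
    rw [ae_restrict_iff' hAm]
    refine Filter.Eventually.of_forall fun ω hω => ?_
    rw [Real.norm_eq_abs, abs_of_pos (Real.exp_pos _)]
    apply Real.exp_le_exp.2
    apply mul_le_mul_of_nonneg_left _ hb0
    exact (le_abs_self _).trans hω
  have hMc : ((M : ℝ) : ℂ) = ∫ ω in A, Complex.exp ((b : ℂ) * X ω) ∂μ := by
    rw [hM, ← integral_complex_ofReal]
    refine integral_congr_ae (Filter.Eventually.of_forall fun ω => ?_)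
    push_cast
    rfl
  have hbn : ‖((b : ℝ) : ℂ)‖ ≤ 2 := by
    rw [Complex.norm_real, Real.norm_eq_abs, abs_of_nonneg hb0]; linarith
  have hMH : ‖(M : ℂ) - (Real.exp (x ^ 2 / 2) : ℂ) * H b‖ ≤ τ := by
    have h1 := hmgf b hbn
    rw [← hMc] at h1
    have e : Complex.exp ((b : ℂ) ^ 2 * (σ : ℂ) ^ 2 / 2) = (Real.exp (x ^ 2 / 2) : ℂ) := by
      rw [Complex.ofReal_exp]
      congr 1
      rw [← hbσ]; push_cast; ring
    rwa [e] at h1
  have hex1 : 1 ≤ Real.exp (x ^ 2 / 2) := Real.one_le_exp (by positivity)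
  have hexp0 : 0 < Real.exp (x ^ 2 / 2) := Real.exp_pos _
  set m : ℝ := M * Real.exp (-(x ^ 2 / 2)) with hm
  have hmM : M = m * Real.exp (x ^ 2 / 2) := by
    rw [hm, mul_assoc, ← Real.exp_add]; simp
  have hm1 : |m - 1| ≤ τ + ξ := by
    have h1 : ‖(Real.exp (x ^ 2 / 2) : ℂ)‖ * ‖(m : ℂ) - H b‖ ≤ τ := by
      rw [← norm_mul]
      have : (Real.exp (x ^ 2 / 2) : ℂ) * ((m : ℂ) - H b) =
          (M : ℂ) - (Real.exp (x ^ 2 / 2) : ℂ) * H b := by
        rw [hmM]; push_cast; ring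
      rw [this]; exact hMH
    rw [Complex.norm_real, Real.norm_eq_abs, abs_of_pos hexp0] at h1
    have h2 : ‖(m : ℂ) - H b‖ ≤ τ := by
      nlinarith [norm_nonneg ((m : ℂ) - H b)]
    have h3 : ‖(m : ℂ) - 1‖ ≤ τ + ξ := by
      calc ‖(m : ℂ) - 1‖ = ‖((m : ℂ) - H b) + (H b - 1)‖ := by congr 1; ring
        _ ≤ _ := (norm_add_le _ _).trans (add_le_add h2 hHb)
    have h4 : ‖(m : ℂ) - 1‖ = |m - 1| := by
      rw [← Complex.ofReal_one, ← Complex.ofReal_sub, Complex.norm_real, Real.norm_eq_abs]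
    rwa [h4] at h3
  have hm12 : 1 / 2 ≤ m ∧ m ≤ 3 / 2 := by
    rw [abs_le] at hm1
    constructor <;> linarith [hm1.1, hm1.2]
  have hMhalf : Real.exp (x ^ 2 / 2) / 2 ≤ M := by
    rw [hmM]; nlinarith [hm12.1]
  have hMpos : 0 < M := lt_of_lt_of_le (by positivity) hMhalf
  -- the tilted measure
  haveI : NeZero (μ.restrict A) := by
    constructor
    intro h
    rw [hM, h, integral_zero_measure] at hMpos
    exact lt_irrefl _ hMpos
  set P' : Measure Ω := (μ.restrict A).tilted (fun ω => b * X ω) with hP'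
  haveI : IsProbabilityMeasure P' := isProbabilityMeasure_tilted hexpint
  set Z : Ω → ℝ := fun ω => X ω / σ - x with hZ
  have hZm : Measurable Z := by fun_prop
  set Q : Measure ℝ := P'.map Z with hQ
  haveI : IsProbabilityMeasure Q := Measure.isProbabilityMeasure_map hZm.aemeasurable
  have hPint : ∀ (g : Ω → ℂ), ∫ ω, g ω ∂P' = (M : ℂ)⁻¹ * ∫ ω in A, (Real.exp (b * X ω) : ℂ) * g ω ∂μ := by
    intro g
    rw [hP', integral_tilted (fun ω => b * X ω) g, ← integral_const_mul]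
    refine integral_congr_ae (Filter.Eventually.of_forall fun ω => ?_)
    simp only [Complex.real_smul]
    rw [← hM]
    push_cast
    ring
  -- the characteristic function
  have hchar : ∀ s : ℝ, charFun Q s = (M : ℂ)⁻¹ * (Complex.exp (-(s * x : ℝ) * Complex.I) *
      ∫ ω in A, Complex.exp (((b : ℂ) + (s / σ : ℝ) * Complex.I) * X ω) ∂μ) := by
    intro s
    rw [charFun_apply_real, hQ, integral_map hZm.aemeasurable (by fun_prop), hPint]
    congr 1
    rw [← integral_const_mul]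
    refine integral_congr_ae (Filter.Eventually.of_forall fun ω => ?_)
    simp only [hZ]
    rw [Complex.ofReal_exp, ← Complex.exp_add, ← Complex.exp_add]
    congr 1
    push_cast
    field_simp
    ring
  -- the estimate of the characteristic function
  have hchar1 : ∀ s : ℝ, 0 ≤ s → s ≤ σ → ‖charFun Q s - Complex.exp (-((s : ℂ) ^ 2 / 2))‖ ≤
      2 * C₁ / σ * Real.exp (-(s ^ 2 / 2)) * s + 4 * τ := by
    intro s hs0 hs1
    have hsσ0 : 0 ≤ s / σ := by positivity
    have hsσ1 : s / σ ≤ 1 := by rw [div_le_one hσ0]; exact hs1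
    set w : ℂ := (b : ℂ) + (s / σ : ℝ) * Complex.I with hw
    have hwn : ‖w‖ ≤ 2 := by
      refine (norm_add_le _ _).trans ?_
      rw [norm_mul, Complex.norm_I, mul_one, Complex.norm_real, Complex.norm_real,
        Real.norm_eq_abs, Real.norm_eq_abs, abs_of_nonneg hb0, abs_of_nonneg hsσ0]
      linarith
    have h1 := hmgf w hwn
    set J : ℂ := ∫ ω in A, Complex.exp (w * X ω) ∂μ with hJ
    have hsx : ‖Complex.exp (-(s * x : ℝ) * Complex.I)‖ = 1 := by
      have : (-(s * x : ℝ) * Complex.I : ℂ) = ((-(s * x) : ℝ) : ℂ) * Complex.I := by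
        push_cast; ring
      rw [this, Complex.norm_exp_ofReal_mul_I]
    have hsq : Complex.exp (-(s * x : ℝ) * Complex.I) * Complex.exp (w ^ 2 * (σ : ℂ) ^ 2 / 2) =
        (Real.exp (x ^ 2 / 2) : ℂ) * Complex.exp (-((s : ℂ) ^ 2 / 2)) := by
      rw [Complex.ofReal_exp, ← Complex.exp_add, ← Complex.exp_add]
      congr 1
      have hσc : (σ : ℂ) ≠ 0 := by exact_mod_cast hσ0.ne'
      rw [hw, hb]
      push_cast
      field_simp
      ring_nf
      rw [Complex.I_sq]
      ring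
    have hgn : ‖Complex.exp (-((s : ℂ) ^ 2 / 2))‖ = Real.exp (-(s ^ 2 / 2)) := by
      have : (-((s : ℂ) ^ 2 / 2)) = ((-(s ^ 2 / 2) : ℝ) : ℂ) := by push_cast; ring
      rw [this, ← Complex.ofReal_exp, Complex.norm_real, Real.norm_eq_abs,
        abs_of_pos (Real.exp_pos _)]
    have hMne : (M : ℂ) ≠ 0 := by exact_mod_cast hMpos.ne'
    have hdec : charFun Q s - Complex.exp (-((s : ℂ) ^ 2 / 2)) = (M : ℂ)⁻¹ *
        (Complex.exp (-(s * x : ℝ) * Complex.I) * (J - Complex.exp (w ^ 2 * (σ : ℂ) ^ 2 / 2) * H w) +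
          (Real.exp (x ^ 2 / 2) : ℂ) * Complex.exp (-((s : ℂ) ^ 2 / 2)) * (H w - H b) -
          Complex.exp (-((s : ℂ) ^ 2 / 2)) * ((M : ℂ) - (Real.exp (x ^ 2 / 2) : ℂ) * H b)) := by
      rw [hchar s, ← hJ]
      have e1 : Complex.exp (-(s * x : ℝ) * Complex.I) *
          (J - Complex.exp (w ^ 2 * (σ : ℂ) ^ 2 / 2) * H w) +
          (Real.exp (x ^ 2 / 2) : ℂ) * Complex.exp (-((s : ℂ) ^ 2 / 2)) * (H w - H b) -
          Complex.exp (-((s : ℂ) ^ 2 / 2)) * ((M : ℂ) - (Real.exp (x ^ 2 / 2) : ℂ) * H b) =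
          Complex.exp (-(s * x : ℝ) * Complex.I) * J - Complex.exp (-((s : ℂ) ^ 2 / 2)) * M := by
        linear_combination (-(H w)) * hsq
      rw [e1, mul_sub]
      congr 1
      field_simp
    rw [hdec, norm_mul, norm_inv, Complex.norm_real, Real.norm_eq_abs, abs_of_pos hMpos]
    have hwb : ‖H w - H b‖ ≤ C₁ * (s / σ) := by
      have h2 := hH w b hwn hbn
      have : ‖w - b‖ = s / σ := by
        rw [hw, add_sub_cancel_left, norm_mul, Complex.norm_I, mul_one, Complex.norm_real,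
          Real.norm_eq_abs, abs_of_nonneg hsσ0]
      rwa [this] at h2
    have hgle : Real.exp (-(s ^ 2 / 2)) ≤ 1 := Real.exp_le_one_iff.2 (by nlinarith [sq_nonneg s])
    have hbound : ‖Complex.exp (-(s * x : ℝ) * Complex.I) *
          (J - Complex.exp (w ^ 2 * (σ : ℂ) ^ 2 / 2) * H w) +
          (Real.exp (x ^ 2 / 2) : ℂ) * Complex.exp (-((s : ℂ) ^ 2 / 2)) * (H w - H b) -
          Complex.exp (-((s : ℂ) ^ 2 / 2)) * ((M : ℂ) - (Real.exp (x ^ 2 / 2) : ℂ) * H b)‖ ≤
        τ + Real.exp (x ^ 2 / 2) * Real.exp (-(s ^ 2 / 2)) * (C₁ * (s / σ)) + τ := by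
      refine (norm_sub_le _ _).trans (add_le_add ((norm_add_le _ _).trans (add_le_add ?_ ?_)) ?_)
      · rw [norm_mul, hsx, one_mul]; exact h1
      · rw [norm_mul, norm_mul, hgn, Complex.norm_real, Real.norm_eq_abs, abs_of_pos hexp0]
        exact mul_le_mul_of_nonneg_left hwb (by positivity)
      · rw [norm_mul, hgn]
        calc _ ≤ 1 * τ := mul_le_mul hgle hMH (norm_nonneg _) zero_le_one
          _ = τ := one_mul _
    have hMinv : M⁻¹ ≤ 2 * (Real.exp (x ^ 2 / 2))⁻¹ := by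
      rw [← inv_inv (2 * (Real.exp (x ^ 2 / 2))⁻¹)]
      apply inv_anti₀ (by positivity)
      rw [mul_inv, inv_inv]
      linarith
    have hMinv2 : M⁻¹ ≤ 2 := by
      refine hMinv.trans ?_
      have : (Real.exp (x ^ 2 / 2))⁻¹ ≤ 1 := inv_le_one_of_one_le₀ hex1
      linarith
    have hMinv0 : 0 ≤ M⁻¹ := by positivity
    calc M⁻¹ * _ ≤ M⁻¹ * (τ + Real.exp (x ^ 2 / 2) * Real.exp (-(s ^ 2 / 2)) * (C₁ * (s / σ)) + τ) :=
          mul_le_mul_of_nonneg_left hbound hMinv0
      _ = M⁻¹ * (2 * τ) + M⁻¹ * (Real.exp (x ^ 2 / 2) * Real.exp (-(s ^ 2 / 2)) * (C₁ * (s / σ))) := by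
          ring
      _ ≤ 2 * (2 * τ) + (2 * (Real.exp (x ^ 2 / 2))⁻¹) *
          (Real.exp (x ^ 2 / 2) * Real.exp (-(s ^ 2 / 2)) * (C₁ * (s / σ))) := by
          gcongr
      _ = 2 * C₁ / σ * Real.exp (-(s ^ 2 / 2)) * s + 4 * τ := by
          field_simp
          ring
  -- small arguments
  have hQabs : ∫ z, |z| ∂Q ≤ L + σ ∧ Integrable (fun z : ℝ => z) Q := by
    have hbd : ∀ᵐ ω ∂P', |Z ω| ≤ L + σ := by
      have h1 : P' ≪ μ.restrict A := tilted_absolutelyContinuous _ _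
      suffices h0 : ∀ᵐ ω ∂(μ.restrict A), |Z ω| ≤ L + σ from h1.ae_le h0
      rw [ae_restrict_iff' hAm]
      refine Filter.Eventually.of_forall fun ω hω => ?_
      have h2 : |X ω| ≤ L := hω
      have h3 : |X ω / σ| ≤ L := by
        rw [abs_div, abs_of_pos hσ0, div_le_iff₀ hσ0]
        nlinarith [abs_nonneg (X ω)]
      calc |Z ω| ≤ |X ω / σ| + |x| := abs_sub _ _
        _ ≤ L + σ := by rw [abs_of_nonneg hx]; linarith
    have hint : Integrable Z P' := by
      refine Integrable.of_bound hZm.aestronglyMeasurable (L + σ) ?_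
      filter_upwards [hbd] with ω hω
      exact hω
    constructor
    · rw [hQ, integral_map hZm.aemeasurable (by fun_prop)]
      calc ∫ ω, |Z ω| ∂P' ≤ ∫ _ω, (L + σ) ∂P' := by
            apply integral_mono_ae hint.abs (integrable_const _) hbd
        _ = L + σ := by simp
    · rw [hQ, integrable_map_measure (by fun_prop) hZm.aemeasurable]
      exact hint
  have hchar2 : ∀ s : ℝ, 0 ≤ s → s ≤ 1 → ‖charFun Q s - Complex.exp (-((s : ℂ) ^ 2 / 2))‖ ≤
      (L + σ + 1) * s := by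
    intro s hs0 hs1
    have h1 : ‖charFun Q s - 1‖ ≤ (L + σ) * s := by
      have e1 : charFun Q s - 1 = ∫ z, (Complex.exp (s * z * Complex.I) - 1) ∂Q := by
        rw [charFun_apply_real, integral_sub]
        · simp
        · refine Integrable.of_bound (by fun_prop) 1 (Filter.Eventually.of_forall fun z => ?_)
          rw [← Complex.ofReal_mul, Complex.norm_exp_ofReal_mul_I]
        · exact integrable_const _
      rw [e1]
      have h2 : ∀ z : ℝ, ‖Complex.exp (s * z * Complex.I) - 1‖ ≤ s * |z| := by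
        intro z
        have := Real.norm_exp_I_mul_ofReal_sub_one_le (x := s * z)
        rw [mul_comm Complex.I, Complex.ofReal_mul, Real.norm_eq_abs, abs_mul,
          abs_of_nonneg hs0] at this
        exact this
      calc _ ≤ ∫ z, ‖Complex.exp (s * z * Complex.I) - 1‖ ∂Q := norm_integral_le_integral_norm _
        _ ≤ ∫ z, s * |z| ∂Q := by
            apply integral_mono_of_nonneg (Filter.Eventually.of_forall fun _ => norm_nonneg _)
              (hQabs.2.abs.const_mul s) (Filter.Eventually.of_forall h2)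
        _ = s * ∫ z, |z| ∂Q := integral_const_mul _ _
        _ ≤ s * (L + σ) := mul_le_mul_of_nonneg_left hQabs.1 hs0
        _ = (L + σ) * s := mul_comm _ _
    have h2 : ‖1 - Complex.exp (-((s : ℂ) ^ 2 / 2))‖ ≤ s := by
      have : (1 - Complex.exp (-((s : ℂ) ^ 2 / 2))) = ((1 - Real.exp (-(s ^ 2 / 2)) : ℝ) : ℂ) := by
        push_cast; ring_nf
      rw [this, Complex.norm_real, Real.norm_eq_abs, abs_of_nonneg]
      · have := Real.add_one_le_exp (-(s ^ 2 / 2))
        nlinarith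
      · have := Real.exp_le_one_iff.2 (show -(s ^ 2 / 2) ≤ 0 by nlinarith [sq_nonneg s])
        linarith
    calc _ = ‖(charFun Q s - 1) + (1 - Complex.exp (-((s : ℂ) ^ 2 / 2)))‖ := by congr 1; ring
      _ ≤ (L + σ) * s + s := (norm_add_le _ _).trans (add_le_add h1 h2)
      _ = _ := by ring
  -- Esseen
  set Δ : ℝ := 8 * (C₁ + 1) / σ + 4 * τ * σ / δ + 4 * δ * (L + σ + 1) with hΔ
  have hQΔ : ∀ y : ℝ, |Q.real (Iic y) - (gaussianReal 0 1).real (Iic y)| ≤ Δ := by
    intro y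
    set B : ℝ → ℝ := fun t => 2 * C₁ / σ * Real.exp (-(t ^ 2 / 2)) + 4 * τ / δ +
      (L + σ + 1) * max 0 (2 - t / δ) with hB
    have hBc : Continuous B := by fun_prop
    have h1 := Q285MM.ess Q σ B hσ0 hBc (by
      intro t ht0 ht1
      rcases le_or_gt t δ with h | h
      · refine (hchar2 t ht0.le (by linarith)).trans ?_
        rw [mul_comm]
        apply mul_le_mul_of_nonneg_left _ ht0.le
        have e1 : 1 ≤ max 0 (2 - t / δ) := by
          apply le_max_of_le_right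
          have : t / δ ≤ 1 := by rw [div_le_one hδ0]; exact h
          linarith
        have e2 : 0 ≤ 2 * C₁ / σ * Real.exp (-(t ^ 2 / 2)) := by positivity
        have e3 : 0 ≤ 4 * τ / δ := by positivity
        have e4 : (L + σ + 1) * 1 ≤ (L + σ + 1) * max 0 (2 - t / δ) :=
          mul_le_mul_of_nonneg_left e1 (by linarith)
        simp only [hB]
        linarith
      · refine (hchar1 t ht0.le ht1).trans ?_
        have e3 : 4 * τ ≤ 4 * τ / δ * t := by
          rw [div_mul_eq_mul_div, le_div_iff₀ hδ0]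
          exact mul_le_mul_of_nonneg_left h.le (by positivity)
        have e4 : 0 ≤ (L + σ + 1) * max 0 (2 - t / δ) :=
          mul_nonneg (by linarith) (le_max_left _ _)
        have e5 := mul_nonneg ht0.le e4
        simp only [hB]
        nlinarith) y
    have h2 : ∫ t in (0 : ℝ)..σ, B t ≤ 4 * C₁ / σ + 4 * τ * σ / δ + 4 * δ * (L + σ + 1) := by
      have e1 : ∫ t in (0 : ℝ)..σ, B t = 2 * C₁ / σ * (∫ t in (0 : ℝ)..σ, Real.exp (-(t ^ 2 / 2))) +
          4 * τ / δ * σ + (L + σ + 1) * ∫ t in (0 : ℝ)..σ, max 0 (2 - t / δ) := by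
        simp only [hB]
        rw [intervalIntegral.integral_add, intervalIntegral.integral_add,
          intervalIntegral.integral_const_mul, intervalIntegral.integral_const_mul,
          intervalIntegral.integral_const, smul_eq_mul]
        · ring
        · exact Continuous.intervalIntegrable (by fun_prop) _ _
        · exact Continuous.intervalIntegrable (by fun_prop) _ _
        · exact Continuous.intervalIntegrable (by fun_prop) _ _
        · exact Continuous.intervalIntegrable (by fun_prop) _ _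
      rw [e1]
      have e2 := mul_le_mul_of_nonneg_left (int_gauss σ hσ0.le)
        (show 0 ≤ 2 * C₁ / σ by positivity)
      have e3 := mul_le_mul_of_nonneg_left (int_hat σ δ hσ0.le hδ0)
        (show 0 ≤ L + σ + 1 by linarith)
      calc _ ≤ 2 * C₁ / σ * 2 + 4 * τ / δ * σ + (L + σ + 1) * (4 * δ) := by linarith
        _ = _ := by ring
    have hB0 : 0 ≤ ∫ t in (0 : ℝ)..σ, B t := by
      apply intervalIntegral.integral_nonneg hσ0.le
      intro t _
      simp only [hB]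
      have e2 : 0 ≤ 2 * C₁ / σ * Real.exp (-(t ^ 2 / 2)) := by positivity
      have e3 : 0 ≤ 4 * τ / δ := by positivity
      have e4 : 0 ≤ (L + σ + 1) * max 0 (2 - t / δ) :=
        mul_nonneg (by linarith) (le_max_left _ _)
      linarith
    have h3 : 2 / Real.pi ≤ 1 := by
      rw [div_le_one Real.pi_pos]; linarith [Real.pi_gt_three]
    have h4 : 24 / (Real.pi * √(2 * Real.pi) * σ) ≤ 4 / σ := by
      have e1 : 6 ≤ Real.pi * √(2 * Real.pi) := by
        nlinarith [Real.pi_gt_three, sqrt_two_pi_gt]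
      rw [div_le_div_iff₀ (by positivity) hσ0]
      nlinarith
    have h5 : 2 / Real.pi * (∫ t in (0 : ℝ)..σ, B t) ≤ ∫ t in (0 : ℝ)..σ, B t := by
      nlinarith
    have h6 : 4 * C₁ / σ + 4 / σ ≤ 8 * (C₁ + 1) / σ := by
      rw [← add_div]
      apply div_le_div_of_nonneg_right _ hσ0.le
      linarith
    have h7 : |Q.real (Iic y) - (gaussianReal 0 1).real (Iic y)| ≤
      2 / Real.pi * (∫ t in (0 : ℝ)..σ, B t) + 24 / (Real.pi * √(2 * Real.pi) * σ) := h1
    rw [hΔ]
    linarith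
  have hΔ0 : 0 ≤ Δ := (abs_nonneg _).trans (hQΔ 0)
  have hclose := tilt_close Q (gaussianReal 0 1) Δ hQΔ x z₀ hx
  rw [weighted] at hclose
  -- back to the measure
  have hset : {ω | σ * (x + z₀) < X ω} = Z ⁻¹' (Ioi z₀) := by
    ext ω
    simp only [mem_setOf_eq, mem_preimage, mem_Ioi, hZ]
    rw [lt_sub_iff_add_lt, lt_div_iff₀ hσ0]
    constructor <;> intro h <;> linarith
  have hSm : MeasurableSet {ω | σ * (x + z₀) < X ω} := measurableSet_lt measurable_const hX
  have hback : μ.real ({ω | σ * (x + z₀) < X ω} ∩ A) =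
      m * Real.exp (-(x ^ 2 / 2)) * ∫ z in Ioi z₀, Real.exp (-(x * z)) ∂Q := by
    have e1 : ∫ z in Ioi z₀, Real.exp (-(x * z)) ∂Q =
        M⁻¹ * (Real.exp (x ^ 2) * μ.real ({ω | σ * (x + z₀) < X ω} ∩ A)) := by
      rw [hQ, setIntegral_map measurableSet_Ioi (by fun_prop) hZm.aemeasurable, ← hset,
        ← integral_indicator hSm, hP', integral_tilted (fun ω => b * X ω)]
      have e2 : ∀ ω, (Real.exp (b * X ω) / ∫ ω in A, Real.exp (b * X ω) ∂μ) •
          {ω | σ * (x + z₀) < X ω}.indicator (fun ω => Real.exp (-(x * Z ω))) ω =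
          {ω | σ * (x + z₀) < X ω}.indicator (fun _ => M⁻¹ * Real.exp (x ^ 2)) ω := by
        intro ω
        rw [← hM]
        by_cases h : ω ∈ {ω | σ * (x + z₀) < X ω}
        · rw [Set.indicator_of_mem h, Set.indicator_of_mem h, smul_eq_mul, div_mul_eq_mul_div,
            ← Real.exp_add, div_eq_inv_mul]
          congr 2
          simp only [hZ, hb]
          field_simp
          ring
        · rw [Set.indicator_of_notMem h, Set.indicator_of_notMem h, smul_zero]
      simp only [e2]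
      rw [integral_indicator hSm, setIntegral_const, measureReal_restrict_apply hSm, smul_eq_mul]
      ring
    rw [e1, hm]
    have e3 : Real.exp (-(x ^ 2 / 2)) * Real.exp (-(x ^ 2 / 2)) * Real.exp (x ^ 2) = 1 := by
      rw [← Real.exp_add, ← Real.exp_add]
      rw [show -(x ^ 2 / 2) + -(x ^ 2 / 2) + x ^ 2 = 0 by ring, Real.exp_zero]
    calc μ.real ({ω | σ * (x + z₀) < X ω} ∩ A) =
        (Real.exp (-(x ^ 2 / 2)) * Real.exp (-(x ^ 2 / 2)) * Real.exp (x ^ 2)) *
          μ.real ({ω | σ * (x + z₀) < X ω} ∩ A) := by rw [e3, one_mul]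
      _ = _ := by field_simp
  have hPx : 0 ≤ 1 - Phi x := one_sub_Phi_nonneg x
  have hmill := mills x hx
  have hsh := shift x z₀ hx hz
  have hxz : x * |z₀| ≤ 1 := by
    have h1 := mul_le_mul_of_nonneg_left hz hx
    have h2 : x * (1 / (1 + x)) ≤ 1 := by
      rw [mul_one_div, div_le_one (by linarith)]; linarith
    linarith
  have h1x : (1 + x) * |z₀| ≤ 1 := by
    have h1 := mul_le_mul_of_nonneg_left hz (show 0 ≤ 1 + x by linarith)
    rwa [mul_one_div, div_self (by linarith : (1 + x) ≠ 0)] at h1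
  have hexz : Real.exp (-(x * z₀)) ≤ 2.72 := by
    have e1 : -(x * z₀) ≤ 1 := by
      have := neg_abs_le z₀
      nlinarith
    calc Real.exp (-(x * z₀)) ≤ Real.exp 1 := Real.exp_le_exp.2 e1
      _ ≤ 2.72 := by linarith [Real.exp_one_lt_d9]
  -- the main term
  have p1 : |μ.real ({ω | σ * (x + z₀) < X ω} ∩ A) - m * (1 - Phi (x + z₀))| ≤
      130 * (1 + x) * Δ * (1 - Phi x) := by
    have e1 : m * (1 - Phi (x + z₀)) = m * Real.exp (-(x ^ 2 / 2)) *
        (Real.exp (x ^ 2 / 2) * (1 - Phi (x + z₀))) := by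
      have : Real.exp (-(x ^ 2 / 2)) * Real.exp (x ^ 2 / 2) = 1 := by
        rw [← Real.exp_add]; simp
      calc _ = m * (Real.exp (-(x ^ 2 / 2)) * Real.exp (x ^ 2 / 2)) * (1 - Phi (x + z₀)) := by
            rw [this, mul_one]
        _ = _ := by ring
    rw [hback, e1, ← mul_sub, abs_mul, abs_of_nonneg (by
      have := hm12.1
      positivity)]
    have e2 : m * Real.exp (-(x ^ 2 / 2)) ≤ 3 / 2 * (15 * (1 + x) * (1 - Phi x)) :=
      mul_le_mul hm12.2 hmill (Real.exp_pos _).le (by norm_num)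
    calc _ ≤ (3 / 2 * (15 * (1 + x) * (1 - Phi x))) * (2 * Δ * 2.72) := by
          refine mul_le_mul e2 (hclose.trans ?_) (abs_nonneg _) (by positivity)
          exact mul_le_mul_of_nonneg_left hexz (by positivity)
      _ ≤ _ := by
          have : 0 ≤ (1 + x) * Δ * (1 - Phi x) := by positivity
          nlinarith
  have p2 : |m * (1 - Phi (x + z₀)) - (1 - Phi x)| ≤
      (31 * (τ + ξ) + 30 * (1 + x) * |z₀|) * (1 - Phi x) := by
    have e1 : 1 - Phi (x + z₀) ≤ 31 * (1 - Phi x) := by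
      have := (abs_le.1 hsh).2
      have e2 : 30 * (1 + x) * |z₀| * (1 - Phi x) ≤ 30 * (1 - Phi x) := by
        have : 30 * ((1 + x) * |z₀|) ≤ 30 := by linarith
        calc _ = (30 * ((1 + x) * |z₀|)) * (1 - Phi x) := by ring
          _ ≤ _ := mul_le_mul_of_nonneg_right this hPx
      linarith
    calc |m * (1 - Phi (x + z₀)) - (1 - Phi x)|
        = |(m - 1) * (1 - Phi (x + z₀)) + ((1 - Phi (x + z₀)) - (1 - Phi x))| := by
          congr 1; ring
      _ ≤ |(m - 1) * (1 - Phi (x + z₀))| + |(1 - Phi (x + z₀)) - (1 - Phi x)| := abs_add_le _ _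
      _ ≤ (τ + ξ) * (31 * (1 - Phi x)) + 30 * (1 + x) * |z₀| * (1 - Phi x) := by
          rw [abs_mul, abs_of_nonneg (one_sub_Phi_nonneg (x + z₀))]
          exact add_le_add (mul_le_mul hm1 e1 (one_sub_Phi_nonneg _) (by linarith)) hsh
      _ = _ := by ring
  have p3 : |μ.real {ω | σ * (x + z₀) < X ω} - μ.real ({ω | σ * (x + z₀) < X ω} ∩ A)| ≤
      15 * τ * (1 + x) * Real.exp (x ^ 2 / 2) * (1 - Phi x) := by
    have e1 : μ.real {ω | σ * (x + z₀) < X ω} = μ.real ({ω | σ * (x + z₀) < X ω} ∩ A) +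
        μ.real ({ω | σ * (x + z₀) < X ω} \ A) := (measureReal_inter_add_diff hAm).symm
    have e2 : μ.real ({ω | σ * (x + z₀) < X ω} \ A) ≤ τ := by
      refine (measureReal_mono ?_).trans htail
      intro ω hω
      have h9 : ¬ |X ω| ≤ L := hω.2
      exact not_le.1 h9
    rw [e1, add_sub_cancel_left, abs_of_nonneg measureReal_nonneg]
    refine e2.trans ?_
    have e3 : 1 ≤ 15 * (1 + x) * (1 - Phi x) * Real.exp (x ^ 2 / 2) := by
      have := mul_le_mul_of_nonneg_right hmill hexp0.le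
      rwa [← Real.exp_add, neg_add_cancel, Real.exp_zero] at this
    calc τ = τ * 1 := (mul_one τ).symm
      _ ≤ τ * (15 * (1 + x) * (1 - Phi x) * Real.exp (x ^ 2 / 2)) :=
          mul_le_mul_of_nonneg_left e3 hτ0
      _ = _ := by ring
  calc |μ.real {ω | σ * (x + z₀) < X ω} - (1 - Phi x)|
      = |(μ.real {ω | σ * (x + z₀) < X ω} - μ.real ({ω | σ * (x + z₀) < X ω} ∩ A)) +
        (μ.real ({ω | σ * (x + z₀) < X ω} ∩ A) - m * (1 - Phi (x + z₀))) +
        (m * (1 - Phi (x + z₀)) - (1 - Phi x))| := by congr 1; ring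
    _ ≤ _ := (abs_add_le _ _).trans (add_le_add (abs_add_le _ _) le_rfl)
    _ ≤ 15 * τ * (1 + x) * Real.exp (x ^ 2 / 2) * (1 - Phi x) +
        130 * (1 + x) * Δ * (1 - Phi x) + (31 * (τ + ξ) + 30 * (1 + x) * |z₀|) * (1 - Phi x) :=
        add_le_add (add_le_add p3 p1) p2
    _ = _ := by ring

end Pool.Agent.Q177.CD
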