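import Mathlib
import Pool.Agent.Q276.CD.Stm

set_option autoImplicit false

/-!
# Comparison of moments with the random model (job LAW of project CD)
-/

namespace Pool.Agent.Q177.CD

open MeasureTheory Set Filter
open Pool.Agent.Q276.CD (PS)

/-- the uniform measure on `[T, 2T]` -/
noncomputable def mT (T : ℝ) : Measure ℝ := (ENNReal.ofReal T)⁻¹ • volume.restrict (Icc T (2 * T))

theorem mT_prob (T : ℝ) (hT : 0 < T) : IsProbabilityMeasure (mT T) := by
  constructor
  rw [mT, Measure.smul_apply, Measure.restrict_apply MeasurableSet.univ, univ_inter,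
    Real.volume_Icc, smul_eq_mul, show 2 * T - T = T by ring]
  exact ENNReal.inv_mul_cancel (by simpa using hT) ENNReal.ofReal_ne_top

theorem mT_real (T : ℝ) (hT : 0 < T) (s : Set ℝ) (hs : MeasurableSet s) :
    volume.real (Icc T (2 * T) ∩ s) = T * (mT T).real s := by
  rw [mT, measureReal_ennreal_smul_apply, measureReal_restrict_apply hs, ENNReal.toReal_inv,
    ENNReal.toReal_ofReal hT.le, inter_comm]
  field_simp

theorem mT_osc (T l : ℝ) (hT : 0 < T) (hl : l ≠ 0) :
    ‖∫ t, Complex.exp (Complex.I * ((t * l : ℝ) : ℂ)) ∂(mT T)‖ ≤ 2 / (T * |l|) := by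
  rw [mT, integral_smul_measure, ENNReal.toReal_inv, ENNReal.toReal_ofReal hT.le,
    integral_Icc_eq_integral_Ioc, ← intervalIntegral.integral_of_le (by linarith)]
  have h1 : (Complex.I * l : ℂ) ≠ 0 := mul_ne_zero Complex.I_ne_zero (by exact_mod_cast hl)
  have h2 : ∫ t in T..(2 * T), Complex.exp (Complex.I * ((t * l : ℝ) : ℂ)) =
      (Complex.exp ((Complex.I * l) * ((2 * T : ℝ) : ℂ)) -
        Complex.exp ((Complex.I * l) * (T : ℂ))) / (Complex.I * l) := by
    rw [← integral_exp_mul_complex h1]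
    refine intervalIntegral.integral_congr fun t _ => ?_
    show Complex.exp (Complex.I * ((t * l : ℝ) : ℂ)) = Complex.exp ((Complex.I * l) * (t : ℂ))
    congr 1; push_cast; ring
  have h3 : ∀ s : ℝ, ‖Complex.exp ((Complex.I * l) * (s : ℂ))‖ = 1 := by
    intro s
    rw [show (Complex.I * l) * (s : ℂ) = ((l * s : ℝ) : ℂ) * Complex.I by push_cast; ring]
    exact Complex.norm_exp_ofReal_mul_I _
  rw [h2, norm_smul, norm_div, norm_mul, Complex.norm_I, one_mul, Complex.norm_real,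
    Real.norm_eq_abs, Real.norm_eq_abs, abs_inv, abs_of_pos hT]
  have h4 : ‖Complex.exp ((Complex.I * l) * ((2 * T : ℝ) : ℂ)) -
      Complex.exp ((Complex.I * l) * (T : ℂ))‖ ≤ 2 := by
    refine (norm_sub_le _ _).trans ?_
    rw [h3, h3]; norm_num
  have h5 : 0 < |l| := abs_pos.2 hl
  calc _ ≤ T⁻¹ * (2 / |l|) := by gcongr
    _ = _ := by field_simp

/-- primes below `N` as a type -/
abbrev Pr (N : ℕ) : Type := {p : ℕ // p ∈ Nat.primesBelow N}

/-- the uniform measure on `[0,1]` -/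
noncomputable def uU : Measure ℝ := volume.restrict (Icc (0 : ℝ) 1)

instance : IsProbabilityMeasure uU := by
  constructor
  rw [uU, Measure.restrict_apply MeasurableSet.univ, univ_inter, Real.volume_Icc]
  simp

/-- the law of the random phases -/
noncomputable def nu (N : ℕ) : Measure (Pr N → ℝ) := Measure.pi fun _ => uU

instance (N : ℕ) : IsProbabilityMeasure (nu N) := by rw [nu]; infer_instance

/-- the weighted sum of cosines -/
noncomputable def cs (N : ℕ) (θ : Pr N → ℝ) : ℝ := ∑ p : Pr N, (√(p : ℝ))⁻¹ * Real.cos (θ p)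

theorem uU_int (n : ℤ) : ∫ x, Complex.exp (Complex.I * ((n * (2 * Real.pi * x) : ℝ) : ℂ)) ∂uU =
    if n = 0 then 1 else 0 := by
  rw [uU, integral_Icc_eq_integral_Ioc, ← intervalIntegral.integral_of_le (by norm_num)]
  split_ifs with h
  · subst h
    simp
  · have h1 : (Complex.I * n * (2 * Real.pi) : ℂ) ≠ 0 := by
      have : (Real.pi : ℂ) ≠ 0 := by exact_mod_cast Real.pi_ne_zero
      have h2 : (n : ℂ) ≠ 0 := by exact_mod_cast h
      simp [Complex.I_ne_zero, this, h2]
    have h2 : ∫ x in (0 : ℝ)..1, Complex.exp (Complex.I * ((n * (2 * Real.pi * x) : ℝ) : ℂ)) =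
        (Complex.exp ((Complex.I * n * (2 * Real.pi)) * ((1 : ℝ) : ℂ)) -
          Complex.exp ((Complex.I * n * (2 * Real.pi)) * ((0 : ℝ) : ℂ))) /
          (Complex.I * n * (2 * Real.pi)) := by
      rw [← integral_exp_mul_complex h1]
      refine intervalIntegral.integral_congr fun t _ => ?_
      show Complex.exp (Complex.I * ((n * (2 * Real.pi * t) : ℝ) : ℂ)) =
        Complex.exp ((Complex.I * n * (2 * Real.pi)) * (t : ℂ))
      congr 1; push_cast; ring
    rw [h2]
    have h3 : Complex.exp ((Complex.I * n * (2 * Real.pi)) * ((1 : ℝ) : ℂ)) = 1 := by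
      rw [Complex.exp_eq_one_iff]
      exact ⟨n, by push_cast; ring⟩
    rw [h3]
    simp

/-- the sign -/
def sg (b : Bool) : ℤ := if b then 1 else -1

theorem expand {ι : Type} [Fintype ι] (c θ : ι → ℝ) (j : ℕ) :
    ((∑ p, c p * Real.cos (θ p) : ℝ) : ℂ) ^ j = ∑ f : Fin j → ι × Bool,
      ((∏ i, c (f i).1 / 2 : ℝ) : ℂ) *
        Complex.exp (Complex.I * ((∑ i, (sg (f i).2 : ℝ) * θ (f i).1 : ℝ) : ℂ)) := by
  have h1 : ((∑ p, c p * Real.cos (θ p) : ℝ) : ℂ) = ∑ q : ι × Bool,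
      ((c q.1 / 2 : ℝ) : ℂ) * Complex.exp (Complex.I * ((sg q.2 * θ q.1 : ℝ) : ℂ)) := by
    rw [Fintype.sum_prod_type]
    push_cast
    refine Finset.sum_congr rfl fun p _ => ?_
    rw [Fintype.sum_bool, Complex.cos, sg, sg]
    simp only [if_true, Bool.false_eq_true, if_false]
    push_cast
    rw [one_mul, mul_comm Complex.I (θ p : ℂ), show Complex.I * (-1 * (θ p : ℂ)) =
      -(θ p : ℂ) * Complex.I by ring]
    ring
  rw [h1, Fintype.sum_pow]
  refine Finset.sum_congr rfl fun f _ => ?_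
  rw [Finset.prod_mul_distrib, ← Complex.exp_sum]
  push_cast
  rw [Finset.mul_sum]

theorem log_gap (a b : ℕ) (M : ℝ) (ha : 0 < a) (hb : 0 < b) (haM : (a : ℝ) ≤ M)
    (hbM : (b : ℝ) ≤ M) (hab : a ≠ b) : 1 / M ≤ |Real.log a - Real.log b| := by
  have key : ∀ a b : ℕ, 0 < a → 0 < b → (a : ℝ) ≤ M → b < a →
      1 / M ≤ |Real.log a - Real.log b| := by
    intro a b ha hb haM hlt
    have ha' : (0 : ℝ) < a := by exact_mod_cast ha
    have hb' : (0 : ℝ) < b := by exact_mod_cast hb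
    have h1 : (b : ℝ) + 1 ≤ a := by exact_mod_cast hlt
    rw [← Real.log_div ha'.ne' hb'.ne']
    have h2 := Real.one_sub_inv_le_log_of_pos (show (0 : ℝ) < (a : ℝ) / b by positivity)
    refine le_trans ?_ (le_abs_self _)
    refine le_trans ?_ h2
    rw [inv_div, le_sub_iff_add_le, ← le_sub_iff_add_le', ← sub_nonneg]
    have h3 : 1 / M ≤ 1 / a := one_div_le_one_div_of_le ha' haM
    have h4 : 1 - (b : ℝ) / a - 1 / a = (a - b - 1) / a := by field_simp
    have h5 : 0 ≤ ((a : ℝ) - b - 1) / a := div_nonneg (by linarith) ha'.le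
    linarith
  rcases lt_or_gt_of_ne hab with h | h
  · rw [abs_sub_comm]; exact key b a hb ha hbM h
  · exact key a b ha hb haM h

/-- the counting exponent -/
def nf {ι : Type} [DecidableEq ι] {j : ℕ} (f : Fin j → ι × Bool) (q : ι) : ℤ :=
  ∑ i, if (f i).1 = q then sg (f i).2 else 0

theorem nf_sum {ι : Type} [Fintype ι] [DecidableEq ι] {j : ℕ} (f : Fin j → ι × Bool)
    (θ : ι → ℝ) : ∑ i, (sg (f i).2 : ℝ) * θ (f i).1 = ∑ q, (nf f q : ℝ) * θ q := by
  have h1 : ∀ q, (nf f q : ℝ) * θ q = ∑ i, if (f i).1 = q then (sg (f i).2 : ℝ) * θ q else 0 := by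
    intro q
    rw [nf]
    push_cast
    rw [Finset.sum_mul]
    refine Finset.sum_congr rfl fun i _ => ?_
    split_ifs <;> simp
  simp only [h1]
  rw [Finset.sum_comm]
  refine Finset.sum_congr rfl fun i _ => ?_
  rw [Finset.sum_ite_eq]
  simp

theorem Pr_prime {N : ℕ} (p : Pr N) : (p : ℕ).Prime := Nat.prime_of_mem_primesBelow p.2

theorem Pr_lt {N : ℕ} (p : Pr N) : (p : ℕ) < N := Nat.lt_of_mem_primesBelow p.2

/-- the positive part of the product -/
def pa {N j : ℕ} (f : Fin j → Pr N × Bool) (b : Bool) : ℕ :=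
  ∏ i, if (f i).2 = b then ((f i).1 : ℕ) else 1

theorem pa_pos {N j : ℕ} (f : Fin j → Pr N × Bool) (b : Bool) : 0 < pa f b := by
  refine Finset.prod_pos fun i _ => ?_
  split_ifs
  · exact (Pr_prime _).pos
  · exact Nat.one_pos

theorem pa_le {N j : ℕ} (hN : 1 ≤ N) (f : Fin j → Pr N × Bool) (b : Bool) :
    pa f b ≤ N ^ j := by
  have h := Finset.prod_le_pow_card (Finset.univ : Finset (Fin j))
    (fun i => if (f i).2 = b then ((f i).1 : ℕ) else 1) N (by
      intro i _
      show (if (f i).2 = b then ((f i).1 : ℕ) else 1) ≤ N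
      split_ifs
      · exact (Pr_lt _).le
      · exact hN)
  simpa [pa] using h

theorem pa_log {N j : ℕ} (f : Fin j → Pr N × Bool) :
    Real.log (pa f true) - Real.log (pa f false) =
      ∑ i, (sg (f i).2 : ℝ) * Real.log ((f i).1 : ℕ) := by
  have h1 : ∀ b : Bool, Real.log (pa f b) =
      ∑ i, if (f i).2 = b then Real.log ((f i).1 : ℕ) else 0 := by
    intro b
    rw [pa]
    push_cast
    rw [Real.log_prod]
    · refine Finset.sum_congr rfl fun i _ => ?_
      split_ifs <;> simp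
    · intro i _
      split_ifs
      · exact_mod_cast (Pr_prime (f i).1).pos.ne'
      · norm_num
  rw [h1, h1, ← Finset.sum_sub_distrib]
  refine Finset.sum_congr rfl fun i _ => ?_
  cases h : (f i).2 <;> simp [sg]

theorem pa_fact {N j : ℕ} (f : Fin j → Pr N × Bool) (q : Pr N) :
    ((pa f true).factorization q : ℤ) - ((pa f false).factorization q : ℤ) = nf f q := by
  have h1 : ∀ b : Bool, ((pa f b).factorization q : ℤ) =
      ∑ i, if (f i).2 = b ∧ (f i).1 = q then 1 else 0 := by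
    intro b
    rw [pa, Nat.factorization_prod]
    · rw [Finsupp.finset_sum_apply]
      push_cast
      refine Finset.sum_congr rfl fun i _ => ?_
      by_cases hb : (f i).2 = b
      · rw [if_pos hb, (Pr_prime (f i).1).factorization, Finsupp.single_apply]
        by_cases hq : (f i).1 = q
        · rw [if_pos (by rw [hq]), if_pos ⟨hb, hq⟩]; rfl
        · rw [if_neg (fun h => hq (Subtype.ext h)), if_neg (fun h => hq h.2)]; rfl
      · rw [if_neg hb, if_neg (fun h => hb h.1)]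
        simp
    · intro i _
      split_ifs
      · exact (Pr_prime (f i).1).pos.ne'
      · norm_num
  rw [h1, h1, nf, ← Finset.sum_sub_distrib]
  refine Finset.sum_congr rfl fun i _ => ?_
  cases h : (f i).2 <;> by_cases hq : (f i).1 = q <;> simp [sg, hq]

theorem one_term {N j : ℕ} (hN : 1 ≤ N) (f : Fin j → Pr N × Bool) (T : ℝ) (hT : 0 < T) :
    ‖∫ t, Complex.exp (Complex.I *
        ((∑ i, (sg (f i).2 : ℝ) * (t * Real.log ((f i).1 : ℕ)) : ℝ) : ℂ)) ∂(mT T) -
      ∫ ω, Complex.exp (Complex.I *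
        ((∑ i, (sg (f i).2 : ℝ) * (2 * Real.pi * ω (f i).1) : ℝ) : ℂ)) ∂(nu N)‖ ≤
      2 * N ^ j / T := by
  have hNp : (0 : ℝ) < N := by exact_mod_cast hN
  have e1 : ∀ t : ℝ, ∑ i, (sg (f i).2 : ℝ) * (t * Real.log ((f i).1 : ℕ)) =
      t * (Real.log (pa f true) - Real.log (pa f false)) := by
    intro t
    rw [pa_log, Finset.mul_sum]
    exact Finset.sum_congr rfl fun i _ => by ring
  have e2 : ∫ ω, Complex.exp (Complex.I *
        ((∑ i, (sg (f i).2 : ℝ) * (2 * Real.pi * ω (f i).1) : ℝ) : ℂ)) ∂(nu N) =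
      ∏ q : Pr N, if nf f q = 0 then 1 else 0 := by
    have e3 : ∀ ω : Pr N → ℝ, Complex.exp (Complex.I *
        ((∑ i, (sg (f i).2 : ℝ) * (2 * Real.pi * ω (f i).1) : ℝ) : ℂ)) =
        ∏ q, Complex.exp (Complex.I * (((nf f q : ℝ) * (2 * Real.pi * ω q) : ℝ) : ℂ)) := by
      intro ω
      rw [nf_sum f (fun q => 2 * Real.pi * ω q), ← Complex.exp_sum]
      congr 1
      push_cast
      rw [Finset.mul_sum]
    simp only [e3]
    rw [nu, integral_fintype_prod_eq_prod (𝕜 := ℂ) (fun (q : Pr N) (x : ℝ) =>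
      Complex.exp (Complex.I * (((nf f q : ℝ) * (2 * Real.pi * x) : ℝ) : ℂ)))]
    exact Finset.prod_congr rfl fun q _ => uU_int (nf f q)
  rw [e2]
  simp only [e1]
  have hpos : 0 ≤ 2 * (N : ℝ) ^ j / T := by positivity
  by_cases hab : pa f true = pa f false
  · have h0 : ∀ q : Pr N, nf f q = 0 := by
      intro q
      rw [← pa_fact, hab, sub_self]
    have := mT_prob T hT
    simp [h0, hab]
    exact hpos
  · have hq : ∃ q : Pr N, nf f q ≠ 0 := by
      by_contra hcon
      push Not at hcon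
      apply hab
      have h1 := nf_sum f (fun q : Pr N => Real.log (q : ℕ))
      rw [← pa_log] at h1
      have h2 : ∑ q : Pr N, (nf f q : ℝ) * Real.log (q : ℕ) = 0 :=
        Finset.sum_eq_zero fun q _ => by rw [hcon q]; simp
      rw [h2, sub_eq_zero] at h1
      have g1 : (0 : ℝ) < ((pa f true : ℕ) : ℝ) := by exact_mod_cast pa_pos f true
      have g2 : (0 : ℝ) < ((pa f false : ℕ) : ℝ) := by exact_mod_cast pa_pos f false
      have h3 := Real.log_injOn_pos (mem_Ioi.2 g1) (mem_Ioi.2 g2) h1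
      exact_mod_cast h3
    obtain ⟨q, hq⟩ := hq
    rw [Finset.prod_eq_zero (Finset.mem_univ q) (by rw [if_neg hq]), sub_zero]
    have hgap := log_gap (pa f true) (pa f false) ((N : ℝ) ^ j) (pa_pos _ _) (pa_pos _ _)
      (by exact_mod_cast pa_le hN f true) (by exact_mod_cast pa_le hN f false) hab
    have hl : Real.log (pa f true) - Real.log (pa f false) ≠ 0 := by
      intro h
      rw [h, abs_zero] at hgap
      have : 0 < 1 / (N : ℝ) ^ j := by positivity
      linarith
    refine (mT_osc T _ hT hl).trans ?_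
    have hlp : 0 < |Real.log (pa f true) - Real.log (pa f false)| := abs_pos.2 hl
    rw [div_le_div_iff₀ (by positivity) hT]
    rw [div_le_iff₀ (by positivity)] at hgap
    nlinarith

/-- the sum over primes as a function of `t` -/
noncomputable def RT (N : ℕ) (t : ℝ) : ℝ := cs N fun p => t * Real.log (p : ℕ)

/-- the random model -/
noncomputable def Rn (N : ℕ) (ω : Pr N → ℝ) : ℝ := cs N fun p => 2 * Real.pi * ω p

theorem RT_eq (N : ℕ) (t : ℝ) : (PS N t).re = RT N t := by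
  rw [PS, RT, cs, Complex.re_sum, ← Finset.sum_coe_sort]
  refine Finset.sum_congr rfl fun p _ => ?_
  have hp : (0 : ℝ) < ((p : ℕ) : ℝ) := by exact_mod_cast (Pr_prime p).pos
  have hp' : ((p : ℕ) : ℂ) ≠ 0 := by exact_mod_cast hp.ne'
  rw [Complex.cpow_def_of_ne_zero hp', ← Complex.ofReal_natCast, ← Complex.ofReal_log hp.le,
    Complex.exp_re]
  have h1 : ∀ l : ℝ, ((l : ℂ) * -(1 / 2 + (t : ℂ) * Complex.I)).re = -(l / 2) := by
    intro l
    simp [Complex.mul_re]; ring
  have h2 : ∀ l : ℝ, ((l : ℂ) * -(1 / 2 + (t : ℂ) * Complex.I)).im = -(t * l) := by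
    intro l
    simp [Complex.mul_im]; ring
  rw [h1, h2, Real.cos_neg]
  congr 1
  rw [Real.exp_neg, ← Real.log_sqrt hp.le, Real.exp_log (Real.sqrt_pos.2 hp)]

theorem cs_bound (N : ℕ) (θ : Pr N → ℝ) : |cs N θ| ≤ N := by
  rw [cs]
  refine (Finset.abs_sum_le_sum_abs _ _).trans ?_
  have h1 : ∀ p : Pr N, |(√(p : ℝ))⁻¹ * Real.cos (θ p)| ≤ 1 := by
    intro p
    have hp : (1 : ℝ) ≤ ((p : ℕ) : ℝ) := by exact_mod_cast (Pr_prime p).one_lt.le
    have h2 : (√(p : ℝ))⁻¹ ≤ 1 := inv_le_one_of_one_le₀ (Real.one_le_sqrt.2 hp)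
    rw [abs_mul, abs_of_nonneg (by positivity)]
    calc _ ≤ 1 * 1 := mul_le_mul h2 (Real.abs_cos_le_one _) (abs_nonneg _) zero_le_one
      _ = 1 := one_mul 1
  refine (Finset.sum_le_sum fun p _ => h1 p).trans ?_
  rw [Finset.sum_const, nsmul_eq_mul, mul_one, Finset.card_univ, Fintype.card_coe]
  have : (Nat.primesBelow N).card ≤ N := by
    calc _ ≤ (Finset.range N).card := Finset.card_le_card (Finset.filter_subset _ _)
      _ = N := Finset.card_range N
  exact_mod_cast this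

theorem mom_cmp (N : ℕ) (hN : 1 ≤ N) (T : ℝ) (hT : 0 < T) (j : ℕ) :
    ‖∫ t, ((RT N t : ℝ) : ℂ) ^ j ∂(mT T) - ∫ ω, ((Rn N ω : ℝ) : ℂ) ^ j ∂(nu N)‖ ≤
      2 * N ^ (2 * j) / T := by
  have := mT_prob T hT
  have hNp : (0 : ℝ) < N := by exact_mod_cast hN
  have e1 : ∫ t, ((RT N t : ℝ) : ℂ) ^ j ∂(mT T) = ∑ f : Fin j → Pr N × Bool,
      ((∏ i, (√((f i).1 : ℝ))⁻¹ / 2 : ℝ) : ℂ) * ∫ t, Complex.exp (Complex.I *
        ((∑ i, (sg (f i).2 : ℝ) * (t * Real.log ((f i).1 : ℕ)) : ℝ) : ℂ)) ∂(mT T) := by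
    simp only [RT, cs, expand]
    rw [integral_finset_sum]
    · exact Finset.sum_congr rfl fun f _ => integral_const_mul _ _
    · intro f _
      refine Integrable.of_bound (by fun_prop) (‖((∏ i, (√((f i).1 : ℝ))⁻¹ / 2 : ℝ) : ℂ)‖) ?_
      refine Filter.Eventually.of_forall fun t => ?_
      rw [norm_mul, mul_comm Complex.I, Complex.norm_exp_ofReal_mul_I, mul_one]
  have e2 : ∫ ω, ((Rn N ω : ℝ) : ℂ) ^ j ∂(nu N) = ∑ f : Fin j → Pr N × Bool,
      ((∏ i, (√((f i).1 : ℝ))⁻¹ / 2 : ℝ) : ℂ) * ∫ ω, Complex.exp (Complex.I *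
        ((∑ i, (sg (f i).2 : ℝ) * (2 * Real.pi * ω (f i).1) : ℝ) : ℂ)) ∂(nu N) := by
    simp only [Rn, cs, expand]
    rw [integral_finset_sum]
    · exact Finset.sum_congr rfl fun f _ => integral_const_mul _ _
    · intro f _
      have hm : Measurable fun ω : Pr N → ℝ =>
          (∑ i, (sg (f i).2 : ℝ) * (2 * Real.pi * ω (f i).1) : ℝ) :=
        Finset.measurable_sum _ fun i _ => ((measurable_pi_apply _).const_mul _).const_mul _
      refine Integrable.of_bound (by
        refine ((Complex.measurable_exp.comp ((Complex.measurable_ofReal.comp hm).const_mul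
          Complex.I)).const_mul _).aestronglyMeasurable)
        (‖((∏ i, (√((f i).1 : ℝ))⁻¹ / 2 : ℝ) : ℂ)‖) ?_
      refine Filter.Eventually.of_forall fun t => ?_
      rw [norm_mul, mul_comm Complex.I, Complex.norm_exp_ofReal_mul_I, mul_one]
  rw [e1, e2, ← Finset.sum_sub_distrib]
  have e3 : ∑ f : Fin j → Pr N × Bool, (∏ i, (√((f i).1 : ℝ))⁻¹ / 2 : ℝ) ≤ (N : ℝ) ^ j := by
    have h1 := Fintype.sum_pow (fun q : Pr N × Bool => (√(q.1 : ℝ))⁻¹ / 2) j
    rw [← h1, Fintype.sum_prod_type]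
    refine pow_le_pow_left₀ (Finset.sum_nonneg fun p _ => Finset.sum_nonneg fun b _ => by
      positivity) ?_ _
    have h2 := cs_bound N fun _ => 0
    refine le_trans (le_of_eq ?_) ((le_abs_self _).trans h2)
    rw [cs]
    refine Finset.sum_congr rfl fun p _ => ?_
    rw [Fintype.sum_bool, Real.cos_zero]; ring
  calc _ ≤ ∑ f : Fin j → Pr N × Bool, (∏ i, (√((f i).1 : ℝ))⁻¹ / 2 : ℝ) * (2 * N ^ j / T) := by
        refine (norm_sum_le _ _).trans (Finset.sum_le_sum fun f _ => ?_)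
        rw [← mul_sub, norm_mul, Complex.norm_real, Real.norm_eq_abs, abs_of_nonneg (by positivity)]
        exact mul_le_mul_of_nonneg_left (one_term hN f T hT) (by positivity)
    _ = (∑ f : Fin j → Pr N × Bool, (∏ i, (√((f i).1 : ℝ))⁻¹ / 2 : ℝ)) * (2 * N ^ j / T) := by
        rw [Finset.sum_mul]
    _ ≤ (N : ℝ) ^ j * (2 * N ^ j / T) := mul_le_mul_of_nonneg_right e3 (by positivity)
    _ = _ := by rw [two_mul j, pow_add]; ring

end Pool.Agent.Q177.CD
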