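import Mathlib
import Pool.Agent.Q177.CD.Mom

set_option autoImplicit false

/-!
# The exponential moments of the random model (job LAW of project CD)
-/

namespace Pool.Agent.Q177.CD

open MeasureTheory Set Filter

/-- the moment generating function of one cosine -/
noncomputable def Iz (z : ℂ) : ℂ := ∫ x, Complex.exp (z * (Real.cos (2 * Real.pi * x) : ℝ)) ∂uU

theorem cos_mom (n : ℕ) : ∫ x, Real.cos (2 * Real.pi * x) ^ n ∂uU =
    (2 * Real.pi)⁻¹ * ∫ x in (0 : ℝ)..(2 * Real.pi), Real.cos x ^ n := by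
  rw [uU, integral_Icc_eq_integral_Ioc, ← intervalIntegral.integral_of_le (by norm_num)]
  have h := intervalIntegral.integral_comp_mul_left (a := (0 : ℝ)) (b := 1)
    (fun x => Real.cos x ^ n) (c := 2 * Real.pi) (by positivity)
  rw [mul_zero, mul_one, smul_eq_mul] at h
  exact h

theorem cos_mom1 : ∫ x, Real.cos (2 * Real.pi * x) ∂uU = 0 := by
  have h := cos_mom 1
  simp only [pow_one] at h
  rw [h, integral_cos, Real.sin_two_pi, Real.sin_zero]; simp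

theorem cos_mom2 : ∫ x, Real.cos (2 * Real.pi * x) ^ 2 ∂uU = 1 / 2 := by
  rw [cos_mom, integral_cos_sq, Real.sin_two_pi, Real.sin_zero]
  have := Real.pi_pos
  field_simp
  ring

theorem cos_mom3 : ∫ x, Real.cos (2 * Real.pi * x) ^ 3 ∂uU = 0 := by
  rw [cos_mom, show 3 = 1 + 2 by norm_num, integral_cos_pow, Real.sin_two_pi, Real.sin_zero]
  simp

theorem Iz_bound (z : ℂ) : ‖Iz z - (1 + z ^ 2 / 4)‖ ≤ ‖z‖ ^ 4 * Real.exp ‖z‖ := by
  have hi : ∀ f : ℝ → ℂ, Continuous f → Integrable (fun x => f (Real.cos (2 * Real.pi * x))) uU := by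
    intro f hf
    obtain ⟨C, hC⟩ := (isCompact_Icc (a := (-1 : ℝ)) (b := 1)).exists_bound_of_continuousOn
      hf.continuousOn
    refine Integrable.of_bound (hf.comp (by fun_prop)).measurable.aestronglyMeasurable C ?_
    exact Filter.Eventually.of_forall fun x => hC _ (abs_le.1 (Real.abs_cos_le_one _))
  have hmom : ∀ n : ℕ, ∫ x, ((Real.cos (2 * Real.pi * x) : ℝ) : ℂ) ^ n ∂uU =
      ((∫ x, Real.cos (2 * Real.pi * x) ^ n ∂uU : ℝ) : ℂ) := by
    intro n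
    rw [← integral_complex_ofReal]; push_cast; rfl
  have h1 : ∫ x, (∑ m ∈ Finset.range 4, (z * (Real.cos (2 * Real.pi * x) : ℝ)) ^ m /
      (m.factorial : ℂ)) ∂uU = 1 + z ^ 2 / 4 := by
    rw [integral_finset_sum]
    · have h2 : ∀ m : ℕ, ∫ x, (z * (Real.cos (2 * Real.pi * x) : ℝ)) ^ m / (m.factorial : ℂ) ∂uU =
          z ^ m / (m.factorial : ℂ) * ((∫ x, Real.cos (2 * Real.pi * x) ^ m ∂uU : ℝ) : ℂ) := by
        intro m
        rw [← hmom, ← integral_const_mul]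
        refine integral_congr_ae (Filter.Eventually.of_forall fun ω => ?_)
        simp only [mul_pow]; ring
      simp only [h2]
      rw [Finset.sum_range_succ, Finset.sum_range_succ, Finset.sum_range_succ,
        Finset.sum_range_one, cos_mom2, cos_mom3]
      simp only [pow_one, cos_mom1, pow_zero]
      simp [Nat.factorial]
      ring
    · intro m _
      exact hi (fun x => (z * x) ^ m / (m.factorial : ℂ)) (by fun_prop)
  have h2 : Iz z - (1 + z ^ 2 / 4) = ∫ x, (Complex.exp (z * (Real.cos (2 * Real.pi * x) : ℝ)) -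
      ∑ m ∈ Finset.range 4, (z * (Real.cos (2 * Real.pi * x) : ℝ)) ^ m /
      (m.factorial : ℂ)) ∂uU := by
    rw [integral_sub (hi (fun x => Complex.exp (z * x)) (by fun_prop))
      (hi (fun x => ∑ m ∈ Finset.range 4, (z * x) ^ m / (m.factorial : ℂ)) (by fun_prop)),
      h1, Iz]
  rw [h2]
  have h3 := norm_integral_le_of_norm_le_const (μ := uU) (C := ‖z‖ ^ 4 * Real.exp ‖z‖)
    (f := fun x => Complex.exp (z * (Real.cos (2 * Real.pi * x) : ℝ)) -
      ∑ m ∈ Finset.range 4, (z * (Real.cos (2 * Real.pi * x) : ℝ)) ^ m / (m.factorial : ℂ))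
    (Filter.Eventually.of_forall fun x => by
      refine (Complex.norm_exp_sub_sum_le_norm_mul_exp _ 4).trans ?_
      have h4 : ‖z * ((Real.cos (2 * Real.pi * x) : ℝ) : ℂ)‖ ≤ ‖z‖ := by
        rw [norm_mul, Complex.norm_real, Real.norm_eq_abs]
        calc _ ≤ ‖z‖ * 1 := mul_le_mul_of_nonneg_left (Real.abs_cos_le_one _) (norm_nonneg _)
          _ = ‖z‖ := mul_one _
      gcongr)
  simpa using h3

/-- a constant for the local bound -/
noncomputable def cR (R : ℝ) : ℝ :=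
  Real.exp (R ^ 2) * Real.exp R + Real.exp (R ^ 2) * (1 + R ^ 2) + 1

theorem cR_pos (R : ℝ) : 0 < cR R := by unfold cR; positivity

theorem g_bound (R : ℝ) (z : ℂ) (hz : ‖z‖ ≤ R) :
    ‖Complex.exp (-(z ^ 2 / 4)) * Iz z - 1‖ ≤ cR R * ‖z‖ ^ 4 := by
  have hR : 0 ≤ R := (norm_nonneg _).trans hz
  set u : ℂ := -(z ^ 2 / 4) with hu
  have hun : ‖u‖ = ‖z‖ ^ 2 / 4 := by
    rw [hu, norm_neg, norm_div, norm_pow]; norm_num
  have hz2 : ‖z‖ ^ 2 ≤ R ^ 2 := pow_le_pow_left₀ (norm_nonneg _) hz 2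
  have hu1 : ‖u‖ ≤ R ^ 2 := by rw [hun]; nlinarith [sq_nonneg ‖z‖]
  have he : ‖Complex.exp u‖ ≤ Real.exp (R ^ 2) :=
    (Complex.norm_exp_le_exp_norm u).trans (Real.exp_le_exp.2 hu1)
  have h1 : ‖Complex.exp u - (1 + u)‖ ≤ ‖z‖ ^ 4 * Real.exp (R ^ 2) := by
    have h2 := Complex.norm_exp_sub_sum_le_norm_mul_exp u 2
    rw [Finset.sum_range_succ, Finset.sum_range_one] at h2
    simp only [pow_zero, pow_one, Nat.factorial_zero, Nat.factorial_one, Nat.cast_one,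
      div_one] at h2
    refine h2.trans ?_
    have h3 : ‖u‖ ^ 2 ≤ ‖z‖ ^ 4 := by
      rw [hun]; nlinarith [sq_nonneg (‖z‖ ^ 2)]
    exact mul_le_mul h3 (Real.exp_le_exp.2 hu1) (Real.exp_pos _).le (by positivity)
  have h2 : Complex.exp u * Iz z - 1 = Complex.exp u * (Iz z - (1 + z ^ 2 / 4)) +
      (Complex.exp u - (1 + u)) * (1 + z ^ 2 / 4) - z ^ 4 / 16 := by
    rw [hu]; ring
  have h3 : ‖(1 : ℂ) + z ^ 2 / 4‖ ≤ 1 + R ^ 2 := by
    refine (norm_add_le _ _).trans ?_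
    rw [norm_one, norm_div, norm_pow]
    have : ‖(4 : ℂ)‖ = 4 := by norm_num
    rw [this]
    nlinarith [sq_nonneg ‖z‖]
  have h4 : ‖z ^ 4 / 16‖ ≤ ‖z‖ ^ 4 := by
    rw [norm_div, norm_pow]
    have : ‖(16 : ℂ)‖ = 16 := by norm_num
    rw [this]
    have : 0 ≤ ‖z‖ ^ 4 := by positivity
    linarith
  rw [h2]
  calc _ ≤ ‖Complex.exp u * (Iz z - (1 + z ^ 2 / 4))‖ +
        ‖(Complex.exp u - (1 + u)) * (1 + z ^ 2 / 4)‖ + ‖z ^ 4 / 16‖ :=
        (norm_sub_le _ _).trans (add_le_add (norm_add_le _ _) le_rfl)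
    _ ≤ Real.exp (R ^ 2) * (‖z‖ ^ 4 * Real.exp R) +
        (‖z‖ ^ 4 * Real.exp (R ^ 2)) * (1 + R ^ 2) + ‖z‖ ^ 4 := by
        rw [norm_mul, norm_mul]
        refine add_le_add (add_le_add ?_ ?_) h4
        · refine mul_le_mul he ((Iz_bound z).trans ?_) (norm_nonneg _) (Real.exp_pos _).le
          gcongr
        · exact mul_le_mul h1 h3 (norm_nonneg _) (by positivity)
    _ = _ := by unfold cR; ring

/-- the sum of `1/p` -/
noncomputable def V0 (N : ℕ) : ℝ := ∑ p : Pr N, (((p : ℕ) : ℝ))⁻¹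

/-- the normalised generating function -/
noncomputable def HN (N : ℕ) (w : ℂ) : ℂ :=
  Complex.exp (-(w ^ 2 * V0 N / 4)) * ∫ ω, Complex.exp (w * Rn N ω) ∂(nu N)

theorem HN_prod (N : ℕ) (w : ℂ) : HN N w = ∏ p : Pr N,
    (Complex.exp (-((w * ((√((p : ℕ) : ℝ))⁻¹ : ℝ)) ^ 2 / 4)) *
      Iz (w * ((√((p : ℕ) : ℝ))⁻¹ : ℝ))) := by
  have h1 : ∫ ω, Complex.exp (w * Rn N ω) ∂(nu N) =
      ∏ p : Pr N, Iz (w * ((√((p : ℕ) : ℝ))⁻¹ : ℝ)) := by
    have h2 : ∀ ω : Pr N → ℝ, Complex.exp (w * Rn N ω) = ∏ p : Pr N,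
        Complex.exp ((w * ((√((p : ℕ) : ℝ))⁻¹ : ℝ)) * (Real.cos (2 * Real.pi * ω p) : ℝ)) := by
      intro ω
      rw [← Complex.exp_sum, Rn, cs]
      congr 1
      rw [Complex.ofReal_sum, Finset.mul_sum]
      refine Finset.sum_congr rfl fun p _ => ?_
      rw [Complex.ofReal_mul]; ring
    simp only [h2]
    rw [nu, integral_fintype_prod_eq_prod (𝕜 := ℂ) (fun (p : Pr N) (x : ℝ) =>
      Complex.exp ((w * ((√((p : ℕ) : ℝ))⁻¹ : ℝ)) * (Real.cos (2 * Real.pi * x) : ℝ)))]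
    rfl
  rw [HN, h1, Finset.prod_mul_distrib, ← Complex.exp_sum]
  congr 2
  rw [Finset.sum_neg_distrib, neg_inj, V0]
  push_cast
  rw [Finset.mul_sum, Finset.sum_div]
  refine Finset.sum_congr rfl fun p _ => ?_
  have hp : (0 : ℝ) ≤ ((p : ℕ) : ℝ) := Nat.cast_nonneg _
  have h3 : ((√((p : ℕ) : ℝ))⁻¹ : ℝ) ^ 2 = (((p : ℕ) : ℝ))⁻¹ := by
    rw [inv_pow, Real.sq_sqrt hp]
  have h4 : ((((p : ℕ) : ℝ)⁻¹ : ℝ) : ℂ) = (((√((p : ℕ) : ℝ))⁻¹ : ℝ) : ℂ) ^ 2 := by
    rw [← Complex.ofReal_pow, h3]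
  push_cast at h4 ⊢
  rw [h4]; ring

theorem HN_bound (R : ℝ) : ∃ C : ℝ, 0 < C ∧ ∀ N : ℕ, ∀ w : ℂ, ‖w‖ ≤ R → ‖HN N w‖ ≤ C := by
  have hsum : Summable fun n : ℕ => 1 / (n : ℝ) ^ 2 := Real.summable_one_div_nat_pow.2 (by norm_num)
  refine ⟨Real.exp (cR R * R ^ 4 * ∑' n : ℕ, 1 / (n : ℝ) ^ 2), Real.exp_pos _, ?_⟩
  intro N w hw
  have hR : 0 ≤ R := (norm_nonneg _).trans hw
  rw [HN_prod, norm_prod]
  have h1 : ∀ p : Pr N, ‖Complex.exp (-((w * ((√((p : ℕ) : ℝ))⁻¹ : ℝ)) ^ 2 / 4)) *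
      Iz (w * ((√((p : ℕ) : ℝ))⁻¹ : ℝ))‖ ≤
      Real.exp (cR R * R ^ 4 * (1 / (((p : ℕ) : ℝ)) ^ 2)) := by
    intro p
    have hp : (1 : ℝ) ≤ ((p : ℕ) : ℝ) := by exact_mod_cast (Pr_prime p).one_lt.le
    have h2 : (√(((p : ℕ) : ℝ)))⁻¹ ≤ 1 := inv_le_one_of_one_le₀ (Real.one_le_sqrt.2 hp)
    have h2' : 0 ≤ (√(((p : ℕ) : ℝ)))⁻¹ := by positivity
    have h3 : ‖w * (((√((p : ℕ) : ℝ))⁻¹ : ℝ) : ℂ)‖ ≤ R * (√(((p : ℕ) : ℝ)))⁻¹ := by
      rw [norm_mul, Complex.norm_real, Real.norm_eq_abs, abs_of_nonneg h2']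
      exact mul_le_mul_of_nonneg_right hw h2'
    have h4 : ‖w * (((√((p : ℕ) : ℝ))⁻¹ : ℝ) : ℂ)‖ ≤ R :=
      h3.trans (by nlinarith)
    have h5 := g_bound R _ h4
    have h6 : ‖w * (((√((p : ℕ) : ℝ))⁻¹ : ℝ) : ℂ)‖ ^ 4 ≤ R ^ 4 * (1 / (((p : ℕ) : ℝ)) ^ 2) := by
      refine (pow_le_pow_left₀ (norm_nonneg _) h3 4).trans (le_of_eq ?_)
      rw [mul_pow, inv_pow, show √(((p : ℕ) : ℝ)) ^ 4 = (√(((p : ℕ) : ℝ)) ^ 2) ^ 2 by ring,
        Real.sq_sqrt (by linarith)]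
      ring
    have h7 := norm_add_le (1 : ℂ) (Complex.exp (-((w * ((√((p : ℕ) : ℝ))⁻¹ : ℝ)) ^ 2 / 4)) *
      Iz (w * ((√((p : ℕ) : ℝ))⁻¹ : ℝ)) - 1)
    rw [add_sub_cancel, norm_one] at h7
    have h8 := Real.add_one_le_exp (cR R * R ^ 4 * (1 / (((p : ℕ) : ℝ)) ^ 2))
    have h9 := mul_le_mul_of_nonneg_left h6 (cR_pos R).le
    linarith
  refine (Finset.prod_le_prod (fun p _ => norm_nonneg _) fun p _ => h1 p).trans ?_
  rw [← Real.exp_sum, ← Finset.mul_sum]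
  apply Real.exp_le_exp.2
  refine mul_le_mul_of_nonneg_left ?_ (mul_nonneg (cR_pos R).le (by positivity))
  rw [Finset.sum_coe_sort (Nat.primesBelow N) fun n : ℕ => 1 / (n : ℝ) ^ 2]
  exact hsum.sum_le_tsum _ fun n _ => by positivity

theorem Rn_meas (N : ℕ) : Measurable (Rn N) := by
  unfold Rn cs
  refine Finset.measurable_sum _ fun p _ => ?_
  exact (Real.measurable_cos.comp ((measurable_pi_apply p).const_mul _)).const_mul _

theorem RT_meas (N : ℕ) : Measurable (RT N) := by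
  unfold RT cs
  fun_prop

theorem HN_zero (N : ℕ) : HN N 0 = 1 := by
  rw [HN]; simp

theorem HN_diff (N : ℕ) : Differentiable ℂ (HN N) := by
  have h1 : ProbabilityTheory.integrableExpSet (Rn N) (nu N) = univ := by
    ext t
    simp only [ProbabilityTheory.integrableExpSet, mem_univ, iff_true]
    show Integrable (fun ω => Real.exp (t * Rn N ω)) (nu N)
    refine Integrable.of_bound ((Rn_meas N).const_mul t).exp.aestronglyMeasurable
      (Real.exp (|t| * N)) (Filter.Eventually.of_forall fun ω => ?_)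
    rw [Real.norm_eq_abs, abs_of_pos (Real.exp_pos _)]
    apply Real.exp_le_exp.2
    refine (le_abs_self _).trans ?_
    rw [abs_mul]
    exact mul_le_mul_of_nonneg_left (cs_bound N _) (abs_nonneg _)
  have h2 : Differentiable ℂ (ProbabilityTheory.complexMGF (Rn N) (nu N)) := by
    intro z
    exact (ProbabilityTheory.analyticAt_complexMGF (by rw [h1]; simp)).differentiableAt
  have h3 : HN N = fun w => Complex.exp (-(w ^ 2 * V0 N / 4)) *
      ProbabilityTheory.complexMGF (Rn N) (nu N) w := by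
    funext w; rfl
  rw [h3]
  fun_prop

theorem HN_lip : ∃ C : ℝ, 0 ≤ C ∧ ∀ N : ℕ, ∀ w w' : ℂ, ‖w‖ ≤ 2 → ‖w'‖ ≤ 2 →
    ‖HN N w - HN N w'‖ ≤ C * ‖w - w'‖ := by
  obtain ⟨C, hC0, hC⟩ := HN_bound 3
  refine ⟨C, hC0.le, fun N w w' hw hw' => ?_⟩
  have h1 : ∀ z ∈ Metric.closedBall (0 : ℂ) 2, ‖deriv (HN N) z‖ ≤ C := by
    intro z hz
    have h2 := Complex.norm_deriv_le_of_forall_mem_sphere_norm_le (c := z) (R := 1) (C := C)
      (f := HN N) one_pos (HN_diff N).diffContOnCl (by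
        intro y hy
        apply hC
        have h3 : ‖y - z‖ = 1 := by simpa [dist_eq_norm] using hy
        have h4 : ‖z‖ ≤ 2 := by simpa using hz
        calc ‖y‖ = ‖(y - z) + z‖ := by rw [sub_add_cancel]
          _ ≤ ‖y - z‖ + ‖z‖ := norm_add_le _ _
          _ ≤ 3 := by linarith)
    rwa [div_one] at h2
  exact (convex_closedBall (0 : ℂ) 2).norm_image_sub_le_of_norm_deriv_le
    (fun z _ => (HN_diff N).differentiableAt) h1 (by simpa using hw') (by simpa using hw)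

theorem exp_mom : ∃ C : ℝ, 0 < C ∧ ∀ N : ℕ, ∫ ω, Real.exp (640 * |Rn N ω|) ∂(nu N) ≤
    C * Real.exp (102400 * V0 N) := by
  obtain ⟨C, hC0, hC⟩ := HN_bound 640
  refine ⟨2 * C, by positivity, fun N => ?_⟩
  have h1 : ∀ s : ℝ, |s| = 640 → ∫ ω, Real.exp (s * Rn N ω) ∂(nu N) ≤
      C * Real.exp (102400 * V0 N) := by
    intro s hs
    have h2 : ((∫ ω, Real.exp (s * Rn N ω) ∂(nu N) : ℝ) : ℂ) =
        Complex.exp ((s : ℂ) ^ 2 * V0 N / 4) * HN N s := by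
      rw [HN, ← mul_assoc, ← Complex.exp_add, add_neg_cancel, Complex.exp_zero, one_mul,
        ← integral_complex_ofReal]
      refine integral_congr_ae (Filter.Eventually.of_forall fun ω => ?_)
      push_cast; rfl
    have h3 := congrArg norm h2
    have hn : ‖(s : ℂ)‖ ≤ 640 := by rw [Complex.norm_real, Real.norm_eq_abs, hs]
    have hsq : s ^ 2 = 640 ^ 2 := by rw [← sq_abs, hs]
    rw [Complex.norm_real, Real.norm_eq_abs, norm_mul] at h3
    have h4 : ‖Complex.exp ((s : ℂ) ^ 2 * V0 N / 4)‖ = Real.exp (102400 * V0 N) := by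
      rw [show (s : ℂ) ^ 2 * V0 N / 4 = ((s ^ 2 * V0 N / 4 : ℝ) : ℂ) by push_cast; ring,
        Complex.norm_exp, Complex.ofReal_re, hsq]
      congr 1; ring
    rw [h4] at h3
    calc _ ≤ |∫ ω, Real.exp (s * Rn N ω) ∂(nu N)| := le_abs_self _
      _ = Real.exp (102400 * V0 N) * ‖HN N s‖ := h3
      _ ≤ Real.exp (102400 * V0 N) * C := mul_le_mul_of_nonneg_left (hC N s hn) (Real.exp_pos _).le
      _ = _ := mul_comm _ _
  have hi : ∀ s : ℝ, Integrable (fun ω => Real.exp (s * Rn N ω)) (nu N) := by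
    intro t
    refine Integrable.of_bound ((Rn_meas N).const_mul t).exp.aestronglyMeasurable
      (Real.exp (|t| * N)) (Filter.Eventually.of_forall fun ω => ?_)
    rw [Real.norm_eq_abs, abs_of_pos (Real.exp_pos _)]
    apply Real.exp_le_exp.2
    refine (le_abs_self _).trans ?_
    rw [abs_mul]
    exact mul_le_mul_of_nonneg_left (cs_bound N _) (abs_nonneg _)
  have hi' : Integrable (fun ω => Real.exp (640 * |Rn N ω|)) (nu N) := by
    refine Integrable.of_bound ((Rn_meas N).abs.const_mul 640).exp.aestronglyMeasurable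
      (Real.exp (640 * N)) (Filter.Eventually.of_forall fun ω => ?_)
    rw [Real.norm_eq_abs, abs_of_pos (Real.exp_pos _)]
    apply Real.exp_le_exp.2
    exact mul_le_mul_of_nonneg_left (cs_bound N _) (by norm_num)
  calc _ ≤ ∫ ω, (Real.exp (640 * Rn N ω) + Real.exp (-640 * Rn N ω)) ∂(nu N) := by
        refine integral_mono hi' ((hi 640).add (hi (-640))) fun ω => ?_
        show Real.exp (640 * |Rn N ω|) ≤ Real.exp (640 * Rn N ω) + Real.exp (-640 * Rn N ω)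
        rcases abs_cases (Rn N ω) with ⟨h, _⟩ | ⟨h, _⟩
        · rw [h]; linarith [Real.exp_pos (-640 * Rn N ω)]
        · rw [h, show 640 * -Rn N ω = -640 * Rn N ω by ring]
          linarith [Real.exp_pos (640 * Rn N ω)]
    _ = ∫ ω, Real.exp (640 * Rn N ω) ∂(nu N) + ∫ ω, Real.exp (-640 * Rn N ω) ∂(nu N) :=
        integral_add (hi 640) (hi (-640))
    _ ≤ C * Real.exp (102400 * V0 N) + C * Real.exp (102400 * V0 N) :=
        add_le_add (h1 640 (by norm_num)) (h1 (-640) (by norm_num))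
    _ = _ := by ring

end Pool.Agent.Q177.CD
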