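import Mathlib

set_option autoImplicit false

/-!
# Truncated exponential moments from moments (job LAW of project CD)
-/

namespace Pool.Agent.Q177.CD

open MeasureTheory Set Filter

theorem int_bdd {Ω : Type} [MeasurableSpace Ω] (μ : Measure Ω) [IsFiniteMeasure μ] (X : Ω → ℝ)
    (hX : Measurable X) (M : ℝ) (hXb : ∀ ω, |X ω| ≤ M) (f : ℝ → ℂ) (hf : Continuous f) :
    Integrable (fun ω => f (X ω)) μ := by
  obtain ⟨C, hC⟩ := (isCompact_Icc (a := -M) (b := M)).exists_bound_of_continuousOn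
    hf.continuousOn
  refine Integrable.of_bound (hf.measurable.comp hX).aestronglyMeasurable C ?_
  exact Filter.Eventually.of_forall fun ω => hC _ (abs_le.1 (hXb ω))

theorem int_bdd_real {Ω : Type} [MeasurableSpace Ω] (μ : Measure Ω) [IsFiniteMeasure μ]
    (X : Ω → ℝ) (hX : Measurable X) (M : ℝ) (hXb : ∀ ω, |X ω| ≤ M) (f : ℝ → ℝ)
    (hf : Continuous f) : Integrable (fun ω => f (X ω)) μ := by
  obtain ⟨C, hC⟩ := (isCompact_Icc (a := -M) (b := M)).exists_bound_of_continuousOn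
    hf.continuousOn
  refine Integrable.of_bound (hf.measurable.comp hX).aestronglyMeasurable C ?_
  exact Filter.Eventually.of_forall fun ω => hC _ (abs_le.1 (hXb ω))

theorem trunc_moment {Ω Ω' : Type} [MeasurableSpace Ω] [MeasurableSpace Ω'] (μ : Measure Ω)
    (ν : Measure Ω') [IsProbabilityMeasure μ] [IsProbabilityMeasure ν] (X : Ω → ℝ) (Y : Ω' → ℝ)
    (hX : Measurable X) (hY : Measurable Y) (M : ℝ) (hXb : ∀ ω, |X ω| ≤ M)
    (hYb : ∀ ω, |Y ω| ≤ M) (D : ℕ) (hD : 1 ≤ D) (κ G : ℝ) (hκ : 0 ≤ κ)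
    (hmom : ∀ j ≤ 2 * D, ‖∫ ω, (X ω : ℂ) ^ j ∂μ - ∫ ω, (Y ω : ℂ) ^ j ∂ν‖ ≤ κ)
    (hexp : ∫ ω, Real.exp (640 * |Y ω|) ∂ν ≤ G) :
    (∫ ω, X ω ^ (2 * D) ∂μ) * (40 / D) ^ (2 * D) ≤ (64 : ℝ)⁻¹ ^ D * G + 1600 ^ D * κ := by
  have hDp : (0 : ℝ) < D := by exact_mod_cast hD
  have hD1 : (1 : ℝ) ≤ D := by exact_mod_cast hD
  have h1 : ∫ ω, X ω ^ (2 * D) ∂μ ≤ ∫ ω, Y ω ^ (2 * D) ∂ν + κ := by
    have h2 := hmom (2 * D) le_rfl
    have e1 : ∫ ω, (X ω : ℂ) ^ (2 * D) ∂μ = ((∫ ω, X ω ^ (2 * D) ∂μ : ℝ) : ℂ) := by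
      rw [← integral_complex_ofReal]; push_cast; rfl
    have e2 : ∫ ω, (Y ω : ℂ) ^ (2 * D) ∂ν = ((∫ ω, Y ω ^ (2 * D) ∂ν : ℝ) : ℂ) := by
      rw [← integral_complex_ofReal]; push_cast; rfl
    rw [e1, e2, ← Complex.ofReal_sub, Complex.norm_real, Real.norm_eq_abs] at h2
    linarith [(abs_le.1 h2).2]
  have h2 : ∫ ω, Y ω ^ (2 * D) ∂ν ≤ (2 * D).factorial / 640 ^ (2 * D) * G := by
    have h3 : ∀ ω, Y ω ^ (2 * D) ≤ (2 * D).factorial / 640 ^ (2 * D) *
        Real.exp (640 * |Y ω|) := by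
      intro ω
      have h4 := Real.pow_div_factorial_le_exp (640 * |Y ω|) (by positivity) (2 * D)
      rw [div_le_iff₀ (by positivity), mul_pow, Even.pow_abs (even_two_mul D)] at h4
      rw [div_mul_eq_mul_div, le_div_iff₀ (by positivity)]
      linarith
    calc ∫ ω, Y ω ^ (2 * D) ∂ν ≤ ∫ ω, (2 * D).factorial / 640 ^ (2 * D) *
          Real.exp (640 * |Y ω|) ∂ν := by
          refine integral_mono (int_bdd_real ν Y hY M hYb (fun x => x ^ (2 * D)) (by fun_prop))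
            (int_bdd_real ν Y hY M hYb (fun x => (2 * D).factorial / 640 ^ (2 * D) *
              Real.exp (640 * |x|)) (by fun_prop)) h3
      _ = (2 * D).factorial / 640 ^ (2 * D) * ∫ ω, Real.exp (640 * |Y ω|) ∂ν :=
          integral_const_mul _ _
      _ ≤ _ := mul_le_mul_of_nonneg_left hexp (by positivity)
  have hG : 0 ≤ G := le_trans (integral_nonneg fun ω => (Real.exp_pos _).le) hexp
  have h3 : ((2 * D).factorial : ℝ) ≤ (2 * D) ^ (2 * D) := by
    have := Nat.factorial_le_pow (2 * D)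
    exact_mod_cast this
  have h4 : ((2 * D).factorial : ℝ) / 640 ^ (2 * D) * G * (40 / D) ^ (2 * D) ≤
      (64 : ℝ)⁻¹ ^ D * G := by
    have e1 : ((2 * D : ℝ) ^ (2 * D)) / 640 ^ (2 * D) * G * (40 / D) ^ (2 * D) =
        (64 : ℝ)⁻¹ ^ D * G := by
      have e2 : ((2 * D : ℝ) ^ (2 * D)) / 640 ^ (2 * D) * (40 / D) ^ (2 * D) =
          (64 : ℝ)⁻¹ ^ D := by
        rw [← div_pow, ← mul_pow, pow_mul]
        congr 1
        field_simp
        norm_num
      rw [← e2]; ring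
    rw [← e1]
    gcongr
  have h5 : κ * (40 / D) ^ (2 * D) ≤ 1600 ^ D * κ := by
    have e1 : (40 / (D : ℝ)) ^ (2 * D) ≤ 1600 ^ D := by
      rw [show (1600 : ℝ) ^ D = 40 ^ (2 * D) by rw [pow_mul]; norm_num]
      refine pow_le_pow_left₀ (by positivity) ?_ _
      rw [div_le_iff₀ hDp]; nlinarith
    calc _ ≤ κ * 1600 ^ D := mul_le_mul_of_nonneg_left e1 hκ
      _ = _ := mul_comm _ _
  calc (∫ ω, X ω ^ (2 * D) ∂μ) * (40 / D) ^ (2 * D)
      ≤ ((2 * D).factorial / 640 ^ (2 * D) * G + κ) * (40 / D) ^ (2 * D) :=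
        mul_le_mul_of_nonneg_right (h1.trans (by linarith)) (by positivity)
    _ = (2 * D).factorial / 640 ^ (2 * D) * G * (40 / D) ^ (2 * D) + κ * (40 / D) ^ (2 * D) := by
        ring
    _ ≤ _ := add_le_add h4 h5

theorem trunc_tail {Ω : Type} [MeasurableSpace Ω] (μ : Measure Ω)
    [IsProbabilityMeasure μ] (X : Ω → ℝ)
    (hX : Measurable X) (M : ℝ) (hXb : ∀ ω, |X ω| ≤ M)
    (D : ℕ) (hD : 1 ≤ D) :
    μ.real {ω | (D : ℝ) / 40 < |X ω|} ≤ (∫ ω, X ω ^ (2 * D) ∂μ) * (40 / D) ^ (2 * D) := by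
  have hDp : (0 : ℝ) < D := by exact_mod_cast hD
  have hm : MeasurableSet {ω | (D : ℝ) / 40 < |X ω|} := measurableSet_lt measurable_const hX.abs
  rw [← integral_indicator_one hm, ← integral_mul_const]
  refine integral_mono ?_ ?_ ?_
  · exact (integrable_indicator_iff hm).2 (integrable_const _).integrableOn
  · exact int_bdd_real μ X hX M hXb (fun x => x ^ (2 * D) * (40 / D) ^ (2 * D)) (by fun_prop)
  · intro ω
    by_cases h : ω ∈ {ω | (D : ℝ) / 40 < |X ω|}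
    · rw [indicator_of_mem h]
      have h1 : (D : ℝ) / 40 < |X ω| := h
      show (1 : ℝ) ≤ X ω ^ (2 * D) * (40 / D) ^ (2 * D)
      rw [← Even.pow_abs (even_two_mul D) (X ω), ← mul_pow]
      apply one_le_pow₀
      rw [mul_div_assoc', le_div_iff₀ hDp]
      rw [div_lt_iff₀ (by norm_num)] at h1
      linarith
    · rw [indicator_of_notMem h]
      show (0 : ℝ) ≤ X ω ^ (2 * D) * (40 / D) ^ (2 * D)
      have := Even.pow_nonneg (even_two_mul D) (X ω)
      positivity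

theorem exp_tail (a s : ℝ) (ha : 0 ≤ a) (hs : 1 ≤ s) (n : ℕ) :
    Real.exp a - ∑ m ∈ Finset.range n, a ^ m / m.factorial ≤ s⁻¹ ^ n * Real.exp (s * a) := by
  have hs0 : 0 < s := by linarith
  have h1 : ∀ x : ℝ, HasSum (fun k : ℕ => x ^ (k + n) / (k + n).factorial)
      (Real.exp x - ∑ m ∈ Finset.range n, x ^ m / m.factorial) := by
    intro x
    rw [hasSum_nat_add_iff' (f := fun k : ℕ => x ^ k / k.factorial), Real.exp_eq_exp_ℝ]
    exact NormedSpace.expSeries_div_hasSum_exp x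
  have h2 := (h1 (s * a)).mul_left (s⁻¹ ^ n)
  have h3 : ∀ k : ℕ, a ^ (k + n) / (k + n).factorial ≤
      s⁻¹ ^ n * ((s * a) ^ (k + n) / (k + n).factorial) := by
    intro k
    have e1 : s⁻¹ ^ n * ((s * a) ^ (k + n) / (k + n).factorial) =
        s ^ k * (a ^ (k + n) / (k + n).factorial) := by
      have e2 : s⁻¹ ^ n * s ^ (k + n) = s ^ k := by
        rw [pow_add s, mul_comm (s ^ k), ← mul_assoc, ← mul_pow, inv_mul_cancel₀ hs0.ne',
          one_pow, one_mul]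
      rw [mul_pow, ← e2]
      ring
    rw [e1]
    have h4 : (1 : ℝ) ≤ s ^ k := one_le_pow₀ hs
    have h5 : 0 ≤ a ^ (k + n) / (k + n).factorial := by positivity
    nlinarith
  have h6 := hasSum_le h3 (h1 a) h2
  refine h6.trans (mul_le_mul_of_nonneg_left ?_ (by positivity))
  have : 0 ≤ ∑ m ∈ Finset.range n, (s * a) ^ m / m.factorial :=
    Finset.sum_nonneg fun m _ => by positivity
  linarith

theorem exp_rem (x : ℂ) (a s : ℝ) (hx : ‖x‖ ≤ a) (hs : 1 ≤ s) (n : ℕ) :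
    ‖Complex.exp x - ∑ m ∈ Finset.range n, x ^ m / m.factorial‖ ≤
      s⁻¹ ^ n * Real.exp (s * a) := by
  have hs0 : 0 < s := by linarith
  refine (Complex.norm_exp_sub_sum_le_exp_norm_sub_sum x n).trans
    ((exp_tail _ s (norm_nonneg _) hs n).trans ?_)
  exact mul_le_mul_of_nonneg_left (Real.exp_le_exp.2 (mul_le_mul_of_nonneg_left hx hs0.le))
    (by positivity)

theorem trunc_mgf {Ω Ω' : Type} [MeasurableSpace Ω] [MeasurableSpace Ω'] (μ : Measure Ω)
    (ν : Measure Ω') [IsProbabilityMeasure μ] [IsProbabilityMeasure ν] (X : Ω → ℝ) (Y : Ω' → ℝ)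
    (hX : Measurable X) (hY : Measurable Y) (M : ℝ) (hXb : ∀ ω, |X ω| ≤ M)
    (hYb : ∀ ω, |Y ω| ≤ M) (D : ℕ) (hD : 1 ≤ D) (κ G : ℝ) (hκ : 0 ≤ κ)
    (hmom : ∀ j ≤ 2 * D, ‖∫ ω, (X ω : ℂ) ^ j ∂μ - ∫ ω, (Y ω : ℂ) ^ j ∂ν‖ ≤ κ)
    (hexp : ∫ ω, Real.exp (640 * |Y ω|) ∂ν ≤ G) (w : ℂ) (hw : ‖w‖ ≤ 2) :
    ‖∫ ω in {ω | |X ω| ≤ (D : ℝ) / 40}, Complex.exp (w * X ω) ∂μ -
      ∫ ω, Complex.exp (w * Y ω) ∂ν‖ ≤
      Real.exp (-D) * (1 + 2 * G) + 2 * 1700 ^ D * κ := by
  have hDp : (0 : ℝ) < D := by exact_mod_cast hD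
  have hD1 : (1 : ℝ) ≤ D := by exact_mod_cast hD
  have hG : 0 ≤ G := le_trans (integral_nonneg fun ω => (Real.exp_pos _).le) hexp
  have hmain := trunc_moment μ ν X Y hX hY M hXb hYb D hD κ G hκ hmom hexp
  have he2 : Real.exp 2 ≤ 7.4 := by
    have := Real.exp_one_lt_d9
    have h : Real.exp 2 = Real.exp 1 * Real.exp 1 := by rw [← Real.exp_add]; norm_num
    rw [h]; nlinarith [Real.exp_pos 1]
  have hwx : ∀ x : ℝ, ‖w * (x : ℂ)‖ ≤ 2 * |x| := by
    intro x
    rw [norm_mul, Complex.norm_real, Real.norm_eq_abs]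
    exact mul_le_mul_of_nonneg_right hw (abs_nonneg _)
  have hpow : ∀ s : ℝ, 7.4 ≤ s → s⁻¹ ^ D ≤ Real.exp (-2 * D) := by
    intro s hs
    rw [show (-2 * (D : ℝ)) = (D : ℝ) * (-2) by ring, Real.exp_nat_mul]
    refine pow_le_pow_left₀ (by positivity) ?_ _
    rw [Real.exp_neg]
    exact inv_anti₀ (Real.exp_pos _) (he2.trans hs)
  set A : Set Ω := {ω | |X ω| ≤ (D : ℝ) / 40} with hA
  have hAm : MeasurableSet A := measurableSet_le hX.abs measurable_const
  set P : ℝ → ℂ := fun x => ∑ j ∈ Finset.range D, (w * x) ^ j / j.factorial with hP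
  have hPc : Continuous P := by rw [hP]; fun_prop
  have hPi : Integrable (fun ω => P (X ω)) μ := int_bdd μ X hX M hXb P hPc
  have hPi' : Integrable (fun ω => P (Y ω)) ν := int_bdd ν Y hY M hYb P hPc
  have hEi : Integrable (fun ω => Complex.exp (w * X ω)) μ :=
    int_bdd μ X hX M hXb (fun x => Complex.exp (w * x)) (by fun_prop)
  have hEi' : Integrable (fun ω => Complex.exp (w * Y ω)) ν :=
    int_bdd ν Y hY M hYb (fun x => Complex.exp (w * x)) (by fun_prop)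
  -- T1
  have t1 : ‖∫ ω in A, (Complex.exp (w * X ω) - P (X ω)) ∂μ‖ ≤ Real.exp (-D) := by
    have h1 : ∀ ω ∈ A, ‖Complex.exp (w * X ω) - P (X ω)‖ ≤ Real.exp (-D) := by
      intro ω hω
      have h2 : ‖w * (X ω : ℂ)‖ ≤ D / 20 := by
        have h3 : |X ω| ≤ (D : ℝ) / 40 := hω
        linarith [hwx (X ω)]
      refine (exp_rem _ _ 20 h2 (by norm_num) D).trans ?_
      calc (20 : ℝ)⁻¹ ^ D * Real.exp (20 * (D / 20)) ≤ Real.exp (-2 * D) * Real.exp D := by
            refine mul_le_mul (hpow 20 (by norm_num)) (Real.exp_le_exp.2 (by linarith))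
              (Real.exp_pos _).le (Real.exp_pos _).le
        _ = Real.exp (-D) := by rw [← Real.exp_add]; congr 1; ring
    have h4 := norm_setIntegral_le_of_norm_le_const (μ := μ) (s := A) (measure_lt_top _ _) h1
    refine h4.trans ?_
    calc _ ≤ Real.exp (-D) * 1 :=
          mul_le_mul_of_nonneg_left (by exact measureReal_le_one) (Real.exp_pos _).le
      _ = _ := mul_one _
  -- T2
  have t2 : ‖∫ ω in Aᶜ, P (X ω) ∂μ‖ ≤
      Real.exp (D / 20) * ((64 : ℝ)⁻¹ ^ D * G + 1600 ^ D * κ) := by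
    have h1 : ∀ ω ∈ Aᶜ, ‖P (X ω)‖ ≤ Real.exp (D / 20) * (X ω ^ (2 * D) * (40 / D) ^ (2 * D)) := by
      intro ω hω
      have h3 : (D : ℝ) / 40 < |X ω| := by
        have h9 : ¬ |X ω| ≤ (D : ℝ) / 40 := hω
        exact not_le.1 h9
      have hq : 1 ≤ |X ω| * (40 / D) := by
        rw [mul_div_assoc', le_div_iff₀ hDp]
        rw [div_lt_iff₀ (by norm_num)] at h3
        linarith
      have h4 : ‖P (X ω)‖ ≤ ∑ j ∈ Finset.range D, (2 * |X ω|) ^ j / j.factorial := by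
        refine (norm_sum_le _ _).trans (Finset.sum_le_sum fun j _ => ?_)
        rw [norm_div, norm_pow, Complex.norm_natCast]
        gcongr
        exact hwx _
      have h5 : ∀ j ∈ Finset.range D, (2 * |X ω|) ^ j / j.factorial ≤
          (|X ω| * (40 / D)) ^ (2 * D) * ((D / 20 : ℝ) ^ j / j.factorial) := by
        intro j hj
        have e1 : 2 * |X ω| = (|X ω| * (40 / D)) * (D / 20) := by field_simp; ring
        rw [e1, mul_pow, mul_div_assoc]
        refine mul_le_mul_of_nonneg_right ?_ (by positivity)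
        exact pow_le_pow_right₀ hq (by have := Finset.mem_range.1 hj; omega)
      calc ‖P (X ω)‖ ≤ ∑ j ∈ Finset.range D,
            (|X ω| * (40 / D)) ^ (2 * D) * ((D / 20 : ℝ) ^ j / j.factorial) :=
            h4.trans (Finset.sum_le_sum h5)
        _ = (|X ω| * (40 / D)) ^ (2 * D) *
            ∑ j ∈ Finset.range D, (D / 20 : ℝ) ^ j / j.factorial := by rw [Finset.mul_sum]
        _ ≤ (|X ω| * (40 / D)) ^ (2 * D) * Real.exp (D / 20) :=
            mul_le_mul_of_nonneg_left (Real.sum_le_exp_of_nonneg (by positivity) D)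
              (by positivity)
        _ = _ := by rw [mul_pow, Even.pow_abs (even_two_mul D)]; ring
    have hi2 : Integrable (fun ω => Real.exp (D / 20) *
        (X ω ^ (2 * D) * (40 / D) ^ (2 * D))) μ :=
      int_bdd_real μ X hX M hXb (fun x => Real.exp (D / 20) *
        (x ^ (2 * D) * (40 / D) ^ (2 * D))) (by fun_prop)
    calc ‖∫ ω in Aᶜ, P (X ω) ∂μ‖
        ≤ ∫ ω in Aᶜ, ‖P (X ω)‖ ∂μ := norm_integral_le_integral_norm _
      _ ≤ ∫ ω in Aᶜ, Real.exp (D / 20) * (X ω ^ (2 * D) * (40 / D) ^ (2 * D)) ∂μ :=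
          setIntegral_mono_on hPi.norm.integrableOn hi2.integrableOn hAm.compl h1
      _ ≤ ∫ ω, Real.exp (D / 20) * (X ω ^ (2 * D) * (40 / D) ^ (2 * D)) ∂μ := by
          refine setIntegral_le_integral hi2 (Filter.Eventually.of_forall fun ω => ?_)
          have := Even.pow_nonneg (even_two_mul D) (X ω)
          show (0 : ℝ) ≤ Real.exp (D / 20) * (X ω ^ (2 * D) * (40 / D) ^ (2 * D))
          positivity
      _ = Real.exp (D / 20) * ((∫ ω, X ω ^ (2 * D) ∂μ) * (40 / D) ^ (2 * D)) := by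
          rw [integral_const_mul, integral_mul_const]
      _ ≤ _ := mul_le_mul_of_nonneg_left hmain (Real.exp_pos _).le
  -- T3
  have t3 : ‖∫ ω, P (X ω) ∂μ - ∫ ω, P (Y ω) ∂ν‖ ≤ 7.4 * κ := by
    have e1 : ∫ ω, P (X ω) ∂μ = ∑ j ∈ Finset.range D, w ^ j / j.factorial *
        ∫ ω, (X ω : ℂ) ^ j ∂μ := by
      rw [hP]
      simp only
      rw [integral_finset_sum]
      · refine Finset.sum_congr rfl fun j _ => ?_
        rw [← integral_const_mul]
        refine integral_congr_ae (Filter.Eventually.of_forall fun ω => ?_)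
        simp only [mul_pow]; ring
      · intro j _
        exact int_bdd μ X hX M hXb (fun x => (w * x) ^ j / j.factorial) (by fun_prop)
    have e2 : ∫ ω, P (Y ω) ∂ν = ∑ j ∈ Finset.range D, w ^ j / j.factorial *
        ∫ ω, (Y ω : ℂ) ^ j ∂ν := by
      rw [hP]
      simp only
      rw [integral_finset_sum]
      · refine Finset.sum_congr rfl fun j _ => ?_
        rw [← integral_const_mul]
        refine integral_congr_ae (Filter.Eventually.of_forall fun ω => ?_)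
        simp only [mul_pow]; ring
      · intro j _
        exact int_bdd ν Y hY M hYb (fun x => (w * x) ^ j / j.factorial) (by fun_prop)
    rw [e1, e2, ← Finset.sum_sub_distrib]
    calc _ ≤ ∑ j ∈ Finset.range D, (2 : ℝ) ^ j / j.factorial * κ := by
          refine (norm_sum_le _ _).trans (Finset.sum_le_sum fun j hj => ?_)
          rw [← mul_sub, norm_mul, norm_div, norm_pow, Complex.norm_natCast]
          refine mul_le_mul ?_ (hmom j (by have := Finset.mem_range.1 hj; omega))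
            (norm_nonneg _) (by positivity)
          gcongr
      _ = (∑ j ∈ Finset.range D, (2 : ℝ) ^ j / j.factorial) * κ := by rw [Finset.sum_mul]
      _ ≤ 7.4 * κ := mul_le_mul_of_nonneg_right
          ((Real.sum_le_exp_of_nonneg (by norm_num) D).trans he2) hκ
  -- T4
  have t4 : ‖∫ ω, (P (Y ω) - Complex.exp (w * Y ω)) ∂ν‖ ≤ (8 : ℝ)⁻¹ ^ D * G := by
    have h1 : ∀ ω, ‖P (Y ω) - Complex.exp (w * Y ω)‖ ≤
        (8 : ℝ)⁻¹ ^ D * Real.exp (640 * |Y ω|) := by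
      intro ω
      rw [norm_sub_rev]
      refine (exp_rem _ _ 8 (hwx (Y ω)) (by norm_num) D).trans ?_
      refine mul_le_mul_of_nonneg_left (Real.exp_le_exp.2 ?_) (by positivity)
      have := abs_nonneg (Y ω)
      linarith
    calc _ ≤ ∫ ω, ‖P (Y ω) - Complex.exp (w * Y ω)‖ ∂ν := norm_integral_le_integral_norm _
      _ ≤ ∫ ω, (8 : ℝ)⁻¹ ^ D * Real.exp (640 * |Y ω|) ∂ν :=
          integral_mono (hPi'.sub hEi').norm (int_bdd_real ν Y hY M hYb
            (fun x => (8 : ℝ)⁻¹ ^ D * Real.exp (640 * |x|)) (by fun_prop)) h1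
      _ = (8 : ℝ)⁻¹ ^ D * ∫ ω, Real.exp (640 * |Y ω|) ∂ν := integral_const_mul _ _
      _ ≤ _ := mul_le_mul_of_nonneg_left hexp (by positivity)
  have hsplit : ∫ ω in A, Complex.exp (w * X ω) ∂μ - ∫ ω, Complex.exp (w * Y ω) ∂ν =
      ∫ ω in A, (Complex.exp (w * X ω) - P (X ω)) ∂μ - ∫ ω in Aᶜ, P (X ω) ∂μ +
      (∫ ω, P (X ω) ∂μ - ∫ ω, P (Y ω) ∂ν) + ∫ ω, (P (Y ω) - Complex.exp (w * Y ω)) ∂ν := by
    rw [integral_sub hEi.integrableOn hPi.integrableOn, integral_sub hPi' hEi',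
      ← integral_add_compl hAm hPi]
    ring
  rw [hsplit]
  have hb1 : Real.exp (D / 20) * (64 : ℝ)⁻¹ ^ D ≤ Real.exp (-D) := by
    calc _ ≤ Real.exp (D / 20) * Real.exp (-2 * D) :=
          mul_le_mul_of_nonneg_left (hpow 64 (by norm_num)) (Real.exp_pos _).le
      _ = Real.exp (D / 20 + -2 * D) := (Real.exp_add _ _).symm
      _ ≤ _ := Real.exp_le_exp.2 (by linarith)
  have hb2 : (8 : ℝ)⁻¹ ^ D ≤ Real.exp (-D) :=
    (hpow 8 (by norm_num)).trans (Real.exp_le_exp.2 (by linarith))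
  have hb3 : Real.exp (D / 20) * 1600 ^ D ≤ 1700 ^ D := by
    have e1 : Real.exp (1 / 20) ≤ 17 / 16 := by
      have h1 := Real.one_sub_inv_le_log_of_pos (show (0 : ℝ) < 17 / 16 by norm_num)
      rw [← Real.le_log_iff_exp_le (by norm_num)]
      refine le_trans ?_ h1
      norm_num
    rw [show ((D : ℝ) / 20) = (D : ℝ) * (1 / 20) by ring, Real.exp_nat_mul, ← mul_pow]
    refine pow_le_pow_left₀ (by positivity) ?_ _
    linarith
  have hb4 : (7.4 : ℝ) ≤ 1700 ^ D := by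
    calc (7.4 : ℝ) ≤ 1700 ^ 1 := by norm_num
      _ ≤ 1700 ^ D := pow_le_pow_right₀ (by norm_num) hD
  calc _ ≤ ‖∫ ω in A, (Complex.exp (w * X ω) - P (X ω)) ∂μ‖ + ‖∫ ω in Aᶜ, P (X ω) ∂μ‖ +
      ‖∫ ω, P (X ω) ∂μ - ∫ ω, P (Y ω) ∂ν‖ + ‖∫ ω, (P (Y ω) - Complex.exp (w * Y ω)) ∂ν‖ :=
        (norm_add_le _ _).trans (add_le_add ((norm_add_le _ _).trans
          (add_le_add (norm_sub_le _ _) le_rfl)) le_rfl)
    _ ≤ Real.exp (-D) + Real.exp (D / 20) * ((64 : ℝ)⁻¹ ^ D * G + 1600 ^ D * κ) + 7.4 * κ +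
        (8 : ℝ)⁻¹ ^ D * G := add_le_add (add_le_add (add_le_add t1 t2) t3) t4
    _ ≤ _ := by
        have g1 := mul_le_mul_of_nonneg_right hb1 hG
        have g2 := mul_le_mul_of_nonneg_right hb2 hG
        have g3 := mul_le_mul_of_nonneg_right hb3 hκ
        have g4 := mul_le_mul_of_nonneg_right hb4 hκ
        linarith

end Pool.Agent.Q177.CD
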