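import Mathlib
import Pool.Agent.Q276.CD.Stm
import Pool.Agent.Q177.CD.Gau
import Pool.Agent.Q177.CD.Abs
import Pool.Agent.Q177.CD.Trn
import Pool.Agent.Q177.CD.Mom
import Pool.Agent.Q177.CD.Mod
import Pool.Agent.Erdos456.Mertens

set_option autoImplicit false

/-!
# Moderate deviations of the prime sum (job LAW of project CD)
-/

namespace Pool.Agent.Q177.CD

open MeasureTheory Set Filter
open Pool.Agent.Q276.CD (PS y0 V l3 Phi P_LAW)

theorem V_tendsto : Tendsto V atTop atTop := by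
  unfold V
  exact Real.tendsto_log_atTop.comp Real.tendsto_log_atTop

theorem V0_eq (M : ℕ) : V0 (M + 1) = ∑ p ∈ (Finset.Icc 1 M).filter Nat.Prime, (1 : ℝ) / p := by
  rw [V0, Finset.sum_coe_sort (Nat.primesBelow (M + 1)) fun n : ℕ => ((n : ℝ))⁻¹]
  have h : Nat.primesBelow (M + 1) = (Finset.Icc 1 M).filter Nat.Prime := by
    ext p
    rw [Nat.mem_primesBelow, Finset.mem_filter, Finset.mem_Icc]
    constructor
    · rintro ⟨h1, h2⟩; exact ⟨⟨h2.one_lt.le, by omega⟩, h2⟩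
    · rintro ⟨⟨h1, h2⟩, h3⟩; exact ⟨by omega, h3⟩
  rw [h]
  exact Finset.sum_congr rfl fun p _ => by rw [one_div]

theorem V0_est : ∃ C : ℝ, 0 ≤ C ∧ ∀ T v : ℝ, 1 ≤ v → v = V T → Real.exp v = Real.log T →
    2 * v ^ 4 ≤ Real.exp v → |V0 (y0 T) - v| ≤ 4 * Real.log v + C := by
  obtain ⟨C, hC⟩ := Pool.Agent.Erdos456.Mert.mertens_inv
  refine ⟨|C| + Real.log 2, by positivity, ?_⟩
  intro T v hv hvT hev h2
  have hv4 : (0 : ℝ) < v ^ 4 := by positivity
  set q : ℝ := Real.log T / v ^ 4 with hq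
  have hq2 : 2 ≤ q := by rw [hq, le_div_iff₀ hv4, ← hev]; exact h2
  have hqpos : 0 < q := by linarith
  have hy : y0 T = ⌊Real.exp q⌋₊ + 1 := by rw [y0, ← hvT]
  have hey : 4 ≤ Real.exp q := by
    have h1 : Real.exp 2 ≤ Real.exp q := Real.exp_le_exp.2 hq2
    have h3 := Real.exp_one_gt_d9
    have h4 : Real.exp 2 = Real.exp 1 * Real.exp 1 := by rw [← Real.exp_add]; norm_num
    nlinarith
  set M : ℕ := ⌊Real.exp q⌋₊ with hM
  have hMle : (M : ℝ) ≤ Real.exp q := Nat.floor_le (Real.exp_pos _).le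
  have hMgt : Real.exp q - 1 < M := by
    have := Nat.lt_floor_add_one (Real.exp q)
    rw [← hM] at this
    linarith
  have hM3 : 3 ≤ M := by
    have : (2 : ℝ) < M := by linarith
    have : 2 < M := by exact_mod_cast this
    omega
  have hMpos : (0 : ℝ) < M := by linarith
  have hmert := hC M hM3
  rw [← V0_eq, ← hy] at hmert
  have hM2 : Real.exp q / 2 ≤ M := by linarith
  have hl1 : Real.log M ≤ q := by
    rw [← Real.log_exp q]; exact Real.log_le_log hMpos hMle
  have hl2 : q - Real.log 2 ≤ Real.log M := by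
    have h1 := Real.log_le_log (by positivity) hM2
    rwa [Real.log_div (Real.exp_pos _).ne' (by norm_num), Real.log_exp] at h1
  have hlog2 : Real.log 2 ≤ 1 := by have := Real.log_two_lt_d9; linarith
  have hlM : q / 2 ≤ Real.log M := by linarith
  have hlMpos : 0 < Real.log M := by linarith
  have hlq : Real.log q = v - 4 * Real.log v := by
    rw [hq, ← hev, Real.log_div (Real.exp_pos _).ne' hv4.ne', Real.log_exp, Real.log_pow]
    norm_num
  have hll1 : Real.log (Real.log M) ≤ v - 4 * Real.log v := by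
    rw [← hlq]; exact Real.log_le_log hlMpos hl1
  have hll2 : v - 4 * Real.log v - Real.log 2 ≤ Real.log (Real.log M) := by
    have h1 := Real.log_le_log (by positivity) hlM
    rwa [Real.log_div hqpos.ne' (by norm_num), hlq] at h1
  have hlv : 0 ≤ Real.log v := Real.log_nonneg hv
  have hlog2' : 0 ≤ Real.log 2 := Real.log_nonneg (by norm_num)
  rw [abs_le] at hmert ⊢
  have := le_abs_self C
  constructor <;> linarith [hmert.1, hmert.2]

/-- the error of the truncation -/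
theorem kappa_bound (T v V0' C₃ : ℝ) (N D : ℕ) (hv : 614410 ≤ v) (hT : 0 < T)
    (hev : Real.exp v = Real.log T) (hN : (N : ℝ) ≤ Real.exp (Real.log T / v ^ 4) + 1)
    (hD : (D : ℝ) ≤ v ^ 2 + 1) (hD' : v ^ 2 ≤ (D : ℝ)) (h3 : 48 * v ^ 2 + 2 * v + 8 ≤ Real.exp v)
    (hV0 : V0' ≤ 2 * v) (hC₃ : 0 ≤ C₃) (hC₃' : C₃ ≤ Real.exp v) :
    Real.exp (-D) * (1 + 2 * (C₃ * Real.exp (102400 * V0'))) +
      2 * 1700 ^ D * (2 * N ^ (4 * D) / T) ≤ Real.exp (-v) := by
  have hv0 : 0 < v := by linarith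
  have hhalf : Real.exp (-1) ≤ 1 / 2 := by
    rw [Real.exp_neg]
    have := Real.exp_one_gt_d9
    rw [one_div]
    exact inv_anti₀ (by norm_num) (by linarith)
  have hA : Real.exp (-D) * (1 + 2 * (C₃ * Real.exp (102400 * V0'))) ≤ Real.exp (-v) / 2 := by
    have h1 : C₃ * Real.exp (102400 * V0') ≤ Real.exp (204801 * v) := by
      calc _ ≤ Real.exp v * Real.exp (102400 * (2 * v)) := by gcongr
        _ = _ := by rw [← Real.exp_add]; congr 1; ring
    have h2 : (1 : ℝ) + 2 * (C₃ * Real.exp (102400 * V0')) ≤ Real.exp 2 * Real.exp (204801 * v) := by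
      have h4 : 1 ≤ Real.exp (204801 * v) := Real.one_le_exp (by positivity)
      have h5 : 3 ≤ Real.exp 2 := by linarith [Real.add_one_le_exp (2 : ℝ)]
      nlinarith
    calc _ ≤ Real.exp (-v ^ 2) * (Real.exp 2 * Real.exp (204801 * v)) := by
          refine mul_le_mul (Real.exp_le_exp.2 (by linarith)) h2 (by positivity)
            (Real.exp_pos _).le
      _ = Real.exp (-v ^ 2 + (2 + 204801 * v)) := by rw [← Real.exp_add, ← Real.exp_add]
      _ ≤ Real.exp (-v + -1) := Real.exp_le_exp.2 (by nlinarith)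
      _ = Real.exp (-v) * Real.exp (-1) := Real.exp_add _ _
      _ ≤ Real.exp (-v) * (1 / 2) := mul_le_mul_of_nonneg_left hhalf (Real.exp_pos _).le
      _ = _ := by ring
  have hB : 2 * 1700 ^ D * (2 * (N : ℝ) ^ (4 * D) / T) ≤ Real.exp (-v) / 2 := by
    set q : ℝ := Real.log T / v ^ 4 with hq
    have hq0 : 0 ≤ q := by rw [hq, ← hev]; positivity
    have hN2 : (N : ℝ) ≤ Real.exp (q + 1) := by
      rw [Real.exp_add]
      have h1 := Real.one_le_exp hq0
      have h2 := Real.exp_one_gt_d9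
      nlinarith
    have hNp : (N : ℝ) ^ (4 * D) ≤ Real.exp (4 * D * (q + 1)) := by
      calc (N : ℝ) ^ (4 * D) ≤ Real.exp (q + 1) ^ (4 * D) :=
            pow_le_pow_left₀ (Nat.cast_nonneg _) hN2 _
        _ = _ := by rw [← Real.exp_nat_mul]; push_cast; rfl
    have h1700 : (1700 : ℝ) ^ D ≤ Real.exp (8 * D) := by
      rw [show 8 * (D : ℝ) = D * 8 by ring, Real.exp_nat_mul]
      refine pow_le_pow_left₀ (by norm_num) ?_ _
      have h1 : Real.exp 8 = Real.exp 1 ^ 8 := by rw [← Real.exp_nat_mul]; norm_num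
      rw [h1]
      have h2 : (2.7 : ℝ) ≤ Real.exp 1 := by linarith [Real.exp_one_gt_d9]
      calc (1700 : ℝ) ≤ 2.7 ^ 8 := by norm_num
        _ ≤ _ := pow_le_pow_left₀ (by norm_num) h2 8
    have hT' : T = Real.exp (Real.exp v) := by rw [hev, Real.exp_log hT]
    have hD2 : (D : ℝ) ≤ 2 * v ^ 2 := by nlinarith
    have h4 : 4 ≤ Real.exp 2 := by
      have h3 := Real.exp_one_gt_d9
      have h4 : Real.exp 2 = Real.exp 1 * Real.exp 1 := by rw [← Real.exp_add]; norm_num
      nlinarith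
    have hqv : 4 * (D : ℝ) * (q + 1) ≤ Real.exp v / 2 + 8 * v ^ 2 := by
      have e1 : 4 * (D : ℝ) * q ≤ Real.exp v / 2 := by
        rw [hq, ← hev]
        have e2 : 4 * (D : ℝ) * (Real.exp v / v ^ 4) = (4 * D / v ^ 4) * Real.exp v := by ring
        have e3 : 4 * (D : ℝ) / v ^ 4 ≤ 1 / 2 := by
          rw [div_le_iff₀ (by positivity)]
          have : 16 ≤ v ^ 2 := by nlinarith
          nlinarith [sq_nonneg (v ^ 2)]
        rw [e2]
        calc _ ≤ 1 / 2 * Real.exp v := mul_le_mul_of_nonneg_right e3 (Real.exp_pos _).le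
          _ = _ := by ring
      nlinarith
    calc 2 * 1700 ^ D * (2 * (N : ℝ) ^ (4 * D) / T)
        = 4 * 1700 ^ D * (N : ℝ) ^ (4 * D) * Real.exp (-Real.exp v) := by
          rw [Real.exp_neg, ← hT']; ring
      _ ≤ Real.exp 2 * Real.exp (8 * D) * Real.exp (4 * D * (q + 1)) *
          Real.exp (-Real.exp v) := by gcongr
      _ = Real.exp (2 + 8 * D + 4 * D * (q + 1) + -Real.exp v) := by
          rw [Real.exp_add, Real.exp_add, Real.exp_add]
      _ ≤ Real.exp (-v + -1) := by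
          apply Real.exp_le_exp.2
          nlinarith
      _ = Real.exp (-v) * Real.exp (-1) := Real.exp_add _ _
      _ ≤ Real.exp (-v) * (1 / 2) := mul_le_mul_of_nonneg_left hhalf (Real.exp_pos _).le
      _ = _ := by ring
  linarith

/-- the numerical bookkeeping -/
theorem final_num (ε η v s l σ x z C₁ L : ℝ) (hv : 1 ≤ v) (hs : s = √v)
    (hl : 1 ≤ l) (hls : l ≤ s) (hσ1 : s / 2 ≤ σ) (hσ2 : σ ≤ s) (hx : 0 ≤ x) (hxl : x ≤ s / l)
    (hC₁ : 0 ≤ C₁) (hL0 : 0 ≤ L) (hL : L ≤ v ^ 2) (hz : |z| ≤ 4 * η / (1 + x))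
    (hη : 720 * η ≤ ε) (h7 : 24960 * (C₁ + 1) ≤ ε * l)
    (h9 : 40000 * (v ^ 3 * Real.exp (-(v / 2))) ≤ ε) :
    130 * (1 + x) * (8 * (C₁ + 1) / σ + 4 * Real.exp (-v) * σ / Real.exp (-(v / 2)) +
      4 * Real.exp (-(v / 2)) * (L + σ + 1)) + 31 * (Real.exp (-v) + C₁ * (x / σ)) +
      30 * (1 + x) * |z| + 15 * Real.exp (-v) * (1 + x) * Real.exp (x ^ 2 / 2) ≤ ε := by
  have hs1 : 1 ≤ s := hl.trans hls
  have hs0 : 0 < s := by linarith
  have hl0 : 0 < l := by linarith
  have hσ0 : 0 < σ := by linarith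
  have hss : s ^ 2 = v := by rw [hs, Real.sq_sqrt (by linarith)]
  set E : ℝ := Real.exp (-(v / 2)) with hE
  have hE0 : 0 < E := Real.exp_pos _
  have hEE : Real.exp (-v) = E * E := by rw [hE, ← Real.exp_add]; congr 1; ring
  have hE1 : E ≤ 1 := by rw [hE]; exact Real.exp_le_one_iff.2 (by linarith)
  have h1s : 1 ≤ s / l := by rw [le_div_iff₀ hl0]; linarith
  have hx1 : 1 + x ≤ 2 * (s / l) := by linarith
  have hsl : s / l ≤ s := div_le_self hs0.le hl
  have hx2 : 1 + x ≤ 2 * s := by linarith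
  have hsv : s ≤ v := by nlinarith
  have hv2 : v ≤ v ^ 2 := by nlinarith
  have hv3 : v ^ 2 ≤ v ^ 3 := by nlinarith [sq_nonneg v]
  have hεE : 40000 * (v ^ 3 * E) ≤ ε := h9
  have a1 : 130 * (1 + x) * (8 * (C₁ + 1) / σ) ≤ ε / 6 := by
    have e1 : (1 + x) / σ ≤ 4 / l := by
      rw [div_le_div_iff₀ hσ0 hl0]
      have e2 : (1 + x) * l ≤ 2 * s := by
        calc _ ≤ (2 * (s / l)) * l := mul_le_mul_of_nonneg_right hx1 hl0.le
          _ = _ := by field_simp
      linarith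
    have e3 : (C₁ + 1) * (4 / l) ≤ ε / 6240 := by
      rw [mul_div_assoc', div_le_iff₀ hl0]
      linarith
    calc 130 * (1 + x) * (8 * (C₁ + 1) / σ) = 1040 * ((C₁ + 1) * ((1 + x) / σ)) := by ring
      _ ≤ 1040 * ((C₁ + 1) * (4 / l)) := by gcongr
      _ ≤ 1040 * (ε / 6240) := by gcongr
      _ = _ := by ring
  have a2 : 130 * (1 + x) * (4 * Real.exp (-v) * σ / E) ≤ ε / 6 := by
    have e1 : 4 * Real.exp (-v) * σ / E = 4 * E * σ := by rw [hEE]; field_simp
    rw [e1]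
    calc 130 * (1 + x) * (4 * E * σ) ≤ 130 * (2 * s) * (4 * E * s) := by gcongr
      _ = 1040 * (s ^ 2 * E) := by ring
      _ ≤ 1040 * (v ^ 3 * E) := by rw [hss]; gcongr; linarith
      _ ≤ ε / 6 := by
        have : 0 ≤ v ^ 3 * E := by positivity
        linarith
  have a3 : 130 * (1 + x) * (4 * E * (L + σ + 1)) ≤ ε / 6 := by
    have e1 : L + σ + 1 ≤ 3 * v ^ 2 := by linarith
    calc 130 * (1 + x) * (4 * E * (L + σ + 1)) ≤ 130 * (2 * v) * (4 * E * (3 * v ^ 2)) := by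
          gcongr; linarith
      _ = 3120 * (v ^ 3 * E) := by ring
      _ ≤ ε / 6 := by
        have : 0 ≤ v ^ 3 * E := by positivity
        linarith
  have a4 : 31 * (Real.exp (-v) + C₁ * (x / σ)) ≤ ε / 6 := by
    have e1 : x / σ ≤ 2 / l := by
      rw [div_le_div_iff₀ hσ0 hl0]
      have e2 : x * l ≤ s := by
        calc _ ≤ (s / l) * l := mul_le_mul_of_nonneg_right hxl hl0.le
          _ = _ := by field_simp
      linarith
    have e3 : C₁ * (2 / l) ≤ ε / 12480 := by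
      rw [mul_div_assoc', div_le_iff₀ hl0]
      linarith
    have e4 : C₁ * (x / σ) ≤ ε / 12480 := (mul_le_mul_of_nonneg_left e1 hC₁).trans e3
    have e5 : Real.exp (-v) ≤ v ^ 3 * E := by
      rw [hEE]
      exact mul_le_mul_of_nonneg_right (by linarith) hE0.le
    have : 0 ≤ v ^ 3 * E := by positivity
    linarith
  have a5 : 30 * (1 + x) * |z| ≤ ε / 6 := by
    have e1 : (1 + x) * |z| ≤ 4 * η := by
      calc _ ≤ (1 + x) * (4 * η / (1 + x)) := mul_le_mul_of_nonneg_left hz (by linarith)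
        _ = _ := by field_simp
    linarith
  have a6 : 15 * Real.exp (-v) * (1 + x) * Real.exp (x ^ 2 / 2) ≤ ε / 6 := by
    have e1 : x ^ 2 ≤ v := by
      rw [← hss]; exact pow_le_pow_left₀ hx (hxl.trans hsl) 2
    have e2 : Real.exp (x ^ 2 / 2) ≤ Real.exp (v / 2) := Real.exp_le_exp.2 (by linarith)
    have e3 : E * Real.exp (v / 2) = 1 := by rw [hE, ← Real.exp_add]; simp
    calc 15 * Real.exp (-v) * (1 + x) * Real.exp (x ^ 2 / 2)
        ≤ 15 * Real.exp (-v) * (2 * v) * Real.exp (v / 2) := by gcongr; linarith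
      _ = 30 * (v * E) * (E * Real.exp (v / 2)) := by rw [hEE]; ring
      _ = 30 * (v * E) := by rw [e3, mul_one]
      _ ≤ 30 * (v ^ 3 * E) := by gcongr; linarith
      _ ≤ ε / 6 := by
        have : 0 ≤ v ^ 3 * E := by positivity
        linarith
  calc _ = 130 * (1 + x) * (8 * (C₁ + 1) / σ) + 130 * (1 + x) * (4 * Real.exp (-v) * σ / E) +
      130 * (1 + x) * (4 * E * (L + σ + 1)) + 31 * (Real.exp (-v) + C₁ * (x / σ)) +
      30 * (1 + x) * |z| + 15 * Real.exp (-v) * (1 + x) * Real.exp (x ^ 2 / 2) := by ring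
    _ ≤ ε := by linarith

/-- the conditions on `v` -/
theorem ev_cond (C₀ C₁ C₃ η ε : ℝ) (hη : 0 < η) (hε : 0 < ε) : ∀ᶠ v : ℝ in atTop,
    614410 ≤ v ∧ 2 * v ^ 4 ≤ Real.exp v ∧ 48 * v ^ 2 + 2 * v + 8 ≤ Real.exp v ∧
    4 * Real.log v + C₀ ≤ v / 2 ∧ 2 * (4 * Real.log v + C₀) ≤ η * Real.log v ^ 2 ∧
    C₃ ≤ Real.exp v ∧ 24960 * (C₁ + 1) ≤ ε * Real.log v ∧ Real.log v ≤ √v ∧
    40000 * (v ^ 3 * Real.exp (-(v / 2))) ≤ ε ∧ 8 * C₁ ≤ Real.log v ∧ 1 ≤ Real.log v := by
  have hlog := Real.tendsto_log_atTop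
  refine (eventually_ge_atTop (614410 : ℝ)).and ?_
  refine Filter.Eventually.and ?_ ?_
  · have h := (Real.isLittleO_pow_exp_atTop (n := 4)).bound (show (0 : ℝ) < 1 / 2 by norm_num)
    filter_upwards [h] with v hv
    rw [Real.norm_eq_abs, Real.norm_eq_abs, abs_of_pos (Real.exp_pos _)] at hv
    have := le_abs_self (v ^ 4)
    linarith
  refine Filter.Eventually.and ?_ ?_
  · have h := (Real.isLittleO_pow_exp_atTop (n := 2)).bound (show (0 : ℝ) < 1 / 58 by norm_num)
    filter_upwards [h, eventually_ge_atTop (1 : ℝ)] with v hv hv1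
    rw [Real.norm_eq_abs, Real.norm_eq_abs, abs_of_pos (Real.exp_pos _)] at hv
    have := le_abs_self (v ^ 2)
    nlinarith
  refine Filter.Eventually.and ?_ ?_
  · have h := Real.isLittleO_log_id_atTop.bound (show (0 : ℝ) < 1 / 16 by norm_num)
    filter_upwards [h, eventually_ge_atTop (4 * |C₀| + 1)] with v hv hv1
    simp only [id] at hv
    have hv0 : 0 < v := by have := abs_nonneg C₀; linarith
    rw [Real.norm_eq_abs, Real.norm_eq_abs, abs_of_pos hv0] at hv
    have := le_abs_self (Real.log v)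
    have := le_abs_self C₀
    linarith
  refine Filter.Eventually.and ?_ ?_
  · have h : ∀ᶠ l : ℝ in atTop, 2 * (4 * l + C₀) ≤ η * l ^ 2 := by
      filter_upwards [eventually_ge_atTop ((8 + 2 * |C₀|) / η + 1)] with l hl
      have h1 : (8 + 2 * |C₀|) ≤ η * l := by
        have : (8 + 2 * |C₀|) / η ≤ l := by linarith
        rwa [div_le_iff₀' hη] at this
      have h2 : 1 ≤ l := by
        have : 0 ≤ (8 + 2 * |C₀|) / η := by positivity
        linarith
      have := le_abs_self C₀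
      have := abs_nonneg C₀
      nlinarith
    exact hlog.eventually h
  refine Filter.Eventually.and ?_ ?_
  · exact Real.tendsto_exp_atTop.eventually (eventually_ge_atTop C₃)
  refine Filter.Eventually.and ?_ ?_
  · filter_upwards [hlog.eventually (eventually_ge_atTop (24960 * (C₁ + 1) / ε))] with v hv
    rwa [div_le_iff₀' hε] at hv
  refine Filter.Eventually.and ?_ ?_
  · have h := (isLittleO_log_rpow_atTop (show (0 : ℝ) < 1 / 2 by norm_num)).bound one_pos
    filter_upwards [h, eventually_ge_atTop (0 : ℝ)] with v hv hv0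
    rw [one_mul, Real.norm_eq_abs, Real.norm_eq_abs, ← Real.sqrt_eq_rpow,
      abs_of_nonneg (Real.sqrt_nonneg _)] at hv
    exact (le_abs_self _).trans hv
  refine Filter.Eventually.and ?_ ?_
  · have h := Real.tendsto_pow_mul_exp_neg_atTop_nhds_zero 3
    have h2 : Tendsto (fun v : ℝ => v / 2) atTop atTop := tendsto_id.atTop_div_const (by norm_num)
    have h3 := (h.comp h2).const_mul 320000
    rw [mul_zero] at h3
    filter_upwards [h3.eventually_lt_const hε] with v hv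
    have e : 320000 * ((fun x => x ^ 3 * Real.exp (-x)) ∘ fun v => v / 2) v =
        40000 * (v ^ 3 * Real.exp (-(v / 2))) := by
      simp only [Function.comp_apply]; ring
    rw [e] at hv
    exact hv.le
  refine Filter.Eventually.and ?_ ?_
  · exact hlog.eventually (eventually_ge_atTop (8 * C₁))
  · exact hlog.eventually (eventually_ge_atTop 1)

theorem t_LAW : P_LAW := by
  intro ε hε
  obtain ⟨C₀, hC₀, hV0⟩ := V0_est
  obtain ⟨C₁, hC₁, hlip⟩ := HN_lip
  obtain ⟨C₃, hC₃, hexp⟩ := exp_mom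
  set η : ℝ := min (1 / 4) (ε / 720) with hη
  have hη0 : 0 < η := by rw [hη]; positivity
  have hη4 : η ≤ 1 / 4 := min_le_left _ _
  have hη7 : 720 * η ≤ ε := by
    have : η ≤ ε / 720 := min_le_right _ _
    linarith
  refine ⟨η, hη0, ?_⟩
  filter_upwards [V_tendsto.eventually (ev_cond C₀ C₁ C₃ η ε hη0 hε),
    eventually_gt_atTop (1 : ℝ)] with T hc hT1
  intro x r hx0 hxle hr
  have hT : 0 < T := by linarith
  have hlogT : 0 < Real.log T := Real.log_pos hT1
  have hev : Real.exp (V T) = Real.log T := by rw [V, Real.exp_log hlogT]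
  set v : ℝ := V T with hv
  obtain ⟨c1, c2, c3, c4, c5, c6, c7, c8, c9, c10, c11⟩ := hc
  have hv1 : 1 ≤ v := by linarith
  have hv0 : 0 < v := by linarith
  have hl3 : l3 T = Real.log v := by rw [l3]
  set l : ℝ := Real.log v with hl
  have hl0 : 0 < l := by linarith
  set s : ℝ := √v with hs
  have hs1 : 1 ≤ s := c11.trans c8
  have hs0 : 0 < s := by linarith
  have hss : s ^ 2 = v := by rw [hs, Real.sq_sqrt hv0.le]
  rw [hl3] at hxle
  set N : ℕ := y0 T with hN
  have hN1 : 1 ≤ N := by rw [hN, y0]; omega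
  have hNle : (N : ℝ) ≤ Real.exp (Real.log T / v ^ 4) + 1 := by
    rw [hN, y0]
    push_cast
    have := Nat.floor_le (Real.exp_pos (Real.log T / V T ^ 4)).le
    linarith
  have hW := hV0 T v hv1 hv hev c2
  rw [← hN] at hW
  have hW' := abs_le.1 hW
  have hW1 : v / 2 ≤ V0 N := by linarith [hW'.1]
  have hW2 : V0 N ≤ 2 * v := by linarith [hW'.2]
  set σ : ℝ := √(V0 N / 2) with hσ
  have hσsq : σ ^ 2 = V0 N / 2 := by rw [hσ, Real.sq_sqrt (by linarith)]
  have hσnn : 0 ≤ σ := Real.sqrt_nonneg _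
  have hσ1 : s / 2 ≤ σ := by
    apply le_of_sq_le_sq _ hσnn
    rw [hσsq, div_pow, hss]; linarith only [hW1]
  have hσ2 : σ ≤ s := by
    apply le_of_sq_le_sq _ hs0.le
    rw [hσsq, hss]; linarith
  have hσ0 : 0 < σ := by linarith
  have hl2 : 2 ≤ l := by
    rw [hl, Real.le_log_iff_exp_le hv0]
    have h4 : Real.exp 2 = Real.exp 1 * Real.exp 1 := by rw [← Real.exp_add]; norm_num
    have h5 := Real.exp_one_lt_d9
    have h6 := Real.exp_pos 1
    nlinarith only [h4, h5, h6, c1]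
  have hs2 : 2 ≤ s := hl2.trans c8
  have hσone : 1 ≤ σ := by linarith
  have hxσ' : x / σ ≤ 2 / l := by
    rw [div_le_div_iff₀ hσ0 hl0]
    have e2 : x * l ≤ s := by
      calc _ ≤ (s / l) * l := mul_le_mul_of_nonneg_right hxle hl0.le
        _ = _ := by field_simp
    linarith
  have hxσ1 : x / σ ≤ 1 := hxσ'.trans (by rw [div_le_one hl0]; exact hl2)
  have hxσ : x ≤ σ := by rwa [div_le_one hσ0] at hxσ1
  have hxσ0 : 0 ≤ x / σ := by positivity
  set z : ℝ := r / σ - x with hz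
  have hσz : σ * (x + z) = r := by rw [hz]; field_simp; ring
  have hgap : |√(v / 2) - σ| ≤ (4 * l + C₀) / s := by
    have h1 : (√(v / 2) - σ) * (√(v / 2) + σ) = (v - V0 N) / 2 := by
      have h2 : √(v / 2) ^ 2 = v / 2 := Real.sq_sqrt (by linarith)
      have : (√(v / 2) - σ) * (√(v / 2) + σ) = √(v / 2) ^ 2 - σ ^ 2 := by ring
      rw [this, h2, hσsq]; ring
    have h3 : s / 2 ≤ √(v / 2) + σ := by
      have := Real.sqrt_nonneg (v / 2)
      linarith
    have h4 : |√(v / 2) - σ| * (√(v / 2) + σ) = |v - V0 N| / 2 := by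
      have h5 := congrArg abs h1
      rw [abs_mul, abs_of_nonneg (show 0 ≤ √(v / 2) + σ by linarith), abs_div,
        abs_of_pos (show (0 : ℝ) < 2 by norm_num)] at h5
      exact h5
    rw [le_div_iff₀ hs0]
    have h6 : |v - V0 N| ≤ 4 * l + C₀ := by rw [abs_sub_comm]; exact hW
    have h7 := mul_le_mul_of_nonneg_left h3 (abs_nonneg (√(v / 2) - σ))
    linarith
  have h4C : 0 ≤ 4 * l + C₀ := by linarith
  have hzb : |z| ≤ 4 * η / (1 + x) := by
    have h1x : 0 < 1 + x := by linarith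
    have e1 : |r - x * σ| ≤ 2 * η * s / (1 + x) := by
      have e2 : r - x * σ = (r - x * √(v / 2)) + x * (√(v / 2) - σ) := by ring
      have e3 : |x * (√(v / 2) - σ)| ≤ η * s / (x + 1) := by
        rw [abs_mul, abs_of_nonneg hx0]
        refine (mul_le_mul_of_nonneg_left hgap hx0).trans ?_
        rw [mul_div_assoc', div_le_div_iff₀ hs0 (by linarith)]
        have h1s : 1 ≤ s / l := by rw [le_div_iff₀ hl0]; linarith
        have e4 : x * (x + 1) ≤ (s / l) * (2 * (s / l)) :=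
          mul_le_mul hxle (by linarith) (by linarith) (by positivity)
        have e5 : (s / l) * (2 * (s / l)) * (4 * l + C₀) =
            s ^ 2 * (2 * (4 * l + C₀) / l ^ 2) := by field_simp
        have e6 : 2 * (4 * l + C₀) / l ^ 2 ≤ η := by
          rw [div_le_iff₀ (by positivity)]; exact c5
        calc x * (4 * l + C₀) * (x + 1) = x * (x + 1) * (4 * l + C₀) := by ring
          _ ≤ (s / l) * (2 * (s / l)) * (4 * l + C₀) := mul_le_mul_of_nonneg_right e4 h4C
          _ = s ^ 2 * (2 * (4 * l + C₀) / l ^ 2) := e5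
          _ ≤ s ^ 2 * η := mul_le_mul_of_nonneg_left e6 (by positivity)
          _ = η * s * s := by ring
      rw [e2]
      calc _ ≤ |r - x * √(v / 2)| + |x * (√(v / 2) - σ)| := abs_add_le _ _
        _ ≤ η * s / (x + 1) + η * s / (x + 1) := add_le_add hr e3
        _ = _ := by rw [add_comm x 1]; ring
    have e2 : z = (r - x * σ) / σ := by rw [hz]; field_simp
    rw [e2, abs_div, abs_of_pos hσ0, div_le_iff₀ hσ0]
    refine e1.trans ?_
    rw [div_mul_eq_mul_div]
    apply div_le_div_of_nonneg_right _ h1x.le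
    have := mul_le_mul_of_nonneg_left hσ1 hη0.le
    linarith
  have hz1 : |z| ≤ 1 / (1 + x) := by
    refine hzb.trans (div_le_div_of_nonneg_right (by linarith) (by linarith))
  -- the truncation
  set D : ℕ := ⌈v ^ 2⌉₊ with hD
  have hD1 : v ^ 2 ≤ (D : ℝ) := Nat.le_ceil _
  have hD2 : (D : ℝ) ≤ v ^ 2 + 1 := (Nat.ceil_lt_add_one (by positivity)).le
  have hDone : 1 ≤ D := by
    have h1 : (1 : ℝ) ≤ v ^ 2 := one_le_pow₀ hv1
    have : (1 : ℝ) ≤ D := h1.trans hD1
    exact_mod_cast this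
  have hprob := mT_prob T hT
  set κ : ℝ := 2 * N ^ (4 * D) / T with hκ
  have hκ0 : 0 ≤ κ := by rw [hκ]; positivity
  have hmom : ∀ j ≤ 2 * D, ‖∫ t, ((RT N t : ℝ) : ℂ) ^ j ∂(mT T) -
      ∫ ω, ((Rn N ω : ℝ) : ℂ) ^ j ∂(nu N)‖ ≤ κ := by
    intro j hj
    refine (mom_cmp N hN1 T hT j).trans ?_
    have hN1' : (1 : ℝ) ≤ N := by exact_mod_cast hN1
    have h1 : (N : ℝ) ^ (2 * j) ≤ (N : ℝ) ^ (4 * D) := pow_le_pow_right₀ hN1' (by omega)
    rw [hκ]
    gcongr
  set G : ℝ := C₃ * Real.exp (102400 * V0 N) with hG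
  have hG0 : 0 ≤ G := by rw [hG]; positivity
  have hexpN : ∫ ω, Real.exp (640 * |Rn N ω|) ∂(nu N) ≤ G := hexp N
  have hkb : Real.exp (-D) * (1 + 2 * G) + 2 * 1700 ^ D * κ ≤ Real.exp (-v) :=
    kappa_bound T v (V0 N) C₃ N D c1 hT hev hNle hD2 hD1 c3 hW2 hC₃.le c6
  have hτ : Real.exp (-v) ≤ 1 / 4 := by
    have h1 : Real.exp (-v) ≤ Real.exp (-2) := Real.exp_le_exp.2 (by linarith)
    have h4 : Real.exp (-2) = Real.exp (-1) * Real.exp (-1) := by rw [← Real.exp_add]; norm_num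
    have hhalf : Real.exp (-1) ≤ 1 / 2 := by
      rw [Real.exp_neg]
      have := Real.exp_one_gt_d9
      rw [one_div]
      exact inv_anti₀ (by norm_num) (by linarith)
    have h9 := Real.exp_pos (-1)
    nlinarith only [h1, h4, hhalf, h9]
  have hδ : Real.exp (-(v / 2)) ≤ 1 / 2 := by
    have h1 : Real.exp (-(v / 2)) ≤ Real.exp (-1) := Real.exp_le_exp.2 (by linarith)
    have hhalf : Real.exp (-1) ≤ 1 / 2 := by
      rw [Real.exp_neg]
      have := Real.exp_one_gt_d9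
      rw [one_div]
      exact inv_anti₀ (by norm_num) (by linarith)
    linarith
  have hξ : C₁ * (x / σ) ≤ 1 / 4 := by
    have e1 : C₁ * (x / σ) ≤ C₁ * (2 / l) := mul_le_mul_of_nonneg_left hxσ' hC₁
    refine e1.trans ?_
    rw [mul_div_assoc', div_le_iff₀ hl0]
    linarith
  have hmgf : ∀ w : ℂ, ‖w‖ ≤ 2 → ‖∫ t in {t | |RT N t| ≤ (D : ℝ) / 40},
      Complex.exp (w * RT N t) ∂(mT T) - Complex.exp (w ^ 2 * σ ^ 2 / 2) * HN N w‖ ≤
      Real.exp (-v) := by
    intro w hw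
    have e1 : Complex.exp (w ^ 2 * σ ^ 2 / 2) * HN N w = ∫ ω, Complex.exp (w * Rn N ω) ∂(nu N) := by
      have e2 : ((σ : ℂ)) ^ 2 = (V0 N : ℂ) / 2 := by
        have := congrArg (fun a : ℝ => (a : ℂ)) hσsq
        simpa using this
      rw [HN, ← mul_assoc, ← Complex.exp_add, e2]
      rw [show w ^ 2 * ((V0 N : ℂ) / 2) / 2 + -(w ^ 2 * (V0 N : ℂ) / 4) = 0 by ring,
        Complex.exp_zero, one_mul]
    rw [e1]
    exact (trunc_mgf (mT T) (nu N) (RT N) (Rn N) (RT_meas N) (Rn_meas N) N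
      (fun t => cs_bound N _) (fun ω => cs_bound N _) D hDone κ G hκ0 hmom hexpN w hw).trans hkb
  have htail : (mT T).real {t | (D : ℝ) / 40 < |RT N t|} ≤ Real.exp (-v) := by
    refine (trunc_tail (mT T) (RT N) (RT_meas N) N (fun t => cs_bound N _) D hDone).trans ?_
    refine (trunc_moment (mT T) (nu N) (RT N) (Rn N) (RT_meas N) (Rn_meas N) N
      (fun t => cs_bound N _) (fun ω => cs_bound N _) D hDone κ G hκ0 hmom hexpN).trans ?_
    refine le_trans ?_ hkb
    have e1 : (64 : ℝ)⁻¹ ^ D ≤ Real.exp (-D) := by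
      rw [show (-(D : ℝ)) = (D : ℝ) * (-1) by ring, Real.exp_nat_mul]
      refine pow_le_pow_left₀ (by positivity) ?_ _
      rw [Real.exp_neg]
      exact inv_anti₀ (Real.exp_pos _) (by linarith [Real.exp_one_lt_d9])
    have e2 : (1600 : ℝ) ^ D ≤ 2 * 1700 ^ D := by
      have : (1600 : ℝ) ^ D ≤ 1700 ^ D := pow_le_pow_left₀ (by norm_num) (by norm_num) _
      have : (0 : ℝ) < 1700 ^ D := by positivity
      linarith
    have e3 := mul_le_mul_of_nonneg_right e1 hG0
    have e4 := mul_le_mul_of_nonneg_right e2 hκ0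
    have e5 : 0 ≤ Real.exp (-D) * (1 + G) := by positivity
    linarith
  have hHb : ‖HN N ((x / σ : ℝ) : ℂ) - 1‖ ≤ C₁ * (x / σ) := by
    have h1 := hlip N ((x / σ : ℝ) : ℂ) 0 (by
      rw [Complex.norm_real, Real.norm_eq_abs, abs_of_nonneg hxσ0]; linarith) (by simp)
    rw [HN_zero, sub_zero, Complex.norm_real, Real.norm_eq_abs, abs_of_nonneg hxσ0] at h1
    exact h1
  have hcore := core (mT T) (RT N) (RT_meas N) ((D : ℝ) / 40) σ x (Real.exp (-v))
    (Real.exp (-(v / 2))) C₁ (C₁ * (x / σ)) (HN N) hσone hx0 hxσ (by positivity)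
    (Real.exp_pos _).le hτ hξ (Real.exp_pos _) hδ hC₁ hmgf (hlip N) hHb htail z hz1
  have hL : (D : ℝ) / 40 ≤ v ^ 2 := by
    have h1 : (1 : ℝ) ≤ v ^ 2 := one_le_pow₀ hv1
    linarith only [h1, hD2]
  have hfin := final_num ε η v s l σ x z C₁ ((D : ℝ) / 40) hv1 hs c11 c8 hσ1 hσ2 hx0 hxle hC₁
    (by positivity) hL hzb hη7 c7 c9
  have hset : {t : ℝ | t ∈ Set.Icc T (2 * T) ∧ r < (PS N t).re} =
      Icc T (2 * T) ∩ {t | σ * (x + z) < RT N t} := by
    ext t
    simp only [mem_setOf_eq, mem_inter_iff, RT_eq, hσz]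
  have hPhi := one_sub_Phi_nonneg x
  rw [hset, mT_real T hT _ (measurableSet_lt measurable_const (RT_meas N)), ← mul_sub, abs_mul,
    abs_of_pos hT]
  calc T * |(mT T).real {t | σ * (x + z) < RT N t} - (1 - Phi x)|
      ≤ T * (ε * (1 - Phi x)) :=
        mul_le_mul_of_nonneg_left (hcore.trans (mul_le_mul_of_nonneg_right hfin hPhi)) hT.le
    _ = _ := by ring

end Pool.Agent.Q177.CD
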